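import Pool.Agent.Run7.h953.KB.Law
import Pool.Agent.N656.BD.Dat

set_option autoImplicit false
set_option linter.unusedSectionVars false

/-! Polynomials of bounded bidegree with a large zero. -/

open Filter Topology Finset

namespace Pool.Agent.Run7.h953.KB

open Pool.Agent.N656.PL Pool.Agent.N656.BD Pool.Agent.N656.LL
open Pool.Agent.R414.DN (I MM MM_eq mem_I ibox mem_ibox)

/-- the polynomials with a large integer zero -/
theorem big1 (κ : ℝ) (hκ : 1 ≤ κ) (b : ℕ) : ∃ C : ℝ, 0 ≤ C ∧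
    ∀ (Ω : Type) [Fintype Ω] [DecidableEq Ω] (g : Ω → ℤ) (R : ℝ), 1 ≤ R → Spread g κ R → ∀ T : ℕ,
      1 ≤ T → (T : ℝ) ≤ R →
      (Set.ncard {ω : Fin (b + 1) → Ω | ∃ y : ℤ, (T : ℤ) ≤ |y| ∧ sl b y g ω = 0} : ℝ) *
        (T : ℝ) ^ b ≤ C * (Fintype.card Ω : ℝ) ^ (b + 1) := by
  classical
  induction b with
  | zero =>
    refine ⟨1, zero_le_one, fun Ω _ _ g R hR h T hT hTR => ?_⟩
    rw [pow_zero, mul_one, one_mul]
    have h1 := Set.ncard_le_ncard (Set.subset_univ {ω : Fin (0 + 1) → Ω | ∃ y : ℤ,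
      (T : ℤ) ≤ |y| ∧ sl 0 y g ω = 0}) Set.finite_univ
    rw [Set.ncard_univ, Nat.card_eq_fintype_card, Fintype.card_fun, Fintype.card_fin] at h1
    exact_mod_cast h1
  | succ b ih =>
    obtain ⟨C, hC, hU⟩ := ih
    obtain ⟨lam, hlam⟩ : ∃ lam : ℝ, lam = (b + 2) * κ := ⟨_, rfl⟩
    have hb : (0 : ℝ) ≤ b := by positivity
    have hl : 1 ≤ lam := by rw [hlam]; nlinarith
    have hK0 : 0 ≤ Kap κ lam (b + 1) := le_trans (by positivity) (Kap_ge hκ hl (b + 1))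
    refine ⟨κ * C + 3 * lam * Kap κ lam (b + 1), by positivity, fun Ω _ _ g R hR h T hT hTR => ?_⟩
    obtain ⟨Q, hQ⟩ : ∃ Q : ℝ, Q = (Fintype.card Ω : ℝ) ^ (b + 1 + 1) := ⟨_, rfl⟩
    have hQ0 : 0 ≤ Q := by rw [hQ]; positivity
    rw [← hQ]
    have hT0 : (0 : ℝ) < T := by exact_mod_cast hT
    have hR0 : 0 < R := by linarith
    obtain ⟨N, hN⟩ : ∃ N : ℕ, N = ⌊lam * R⌋₊ := ⟨_, rfl⟩
    have hlR : 1 ≤ lam * R := by nlinarith
    have hNle : (N : ℝ) ≤ lam * R := by rw [hN]; exact Nat.floor_le (by linarith)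
    obtain ⟨p, hp⟩ : ∃ p : (Fin (b + 1) → Ω) → Prop, p = fun ω => ∃ y : ℤ, (T : ℤ) ≤ |y| ∧
      sl b y g ω = 0 := ⟨_, rfl⟩
    have h1 : {ω : Fin (b + 1 + 1) → Ω | ∃ y : ℤ, (T : ℤ) ≤ |y| ∧ sl (b + 1) y g ω = 0} ⊆
        ((univ.filter fun ω : Fin (b + 2) → Ω => g (ω (Fin.last _)) = 0 ∧ p (Fin.init ω)) ∪
          ((Icc (-(N : ℤ)) N).filter fun t => (T : ℤ) ≤ |t|).biUnion fun y =>
            univ.filter fun ω : Fin (b + 2) → Ω =>
            sl (b + 1) y g ω = 0 : Finset (Fin (b + 2) → Ω)) := by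
      rintro ω ⟨y, hTy, hy⟩
      rw [mem_coe, mem_union]
      by_cases h0 : g (ω (Fin.last _)) = 0
      · left
        refine mem_filter.2 ⟨mem_univ _, h0, ?_⟩
        rw [hp]
        refine ⟨y, hTy, ?_⟩
        rw [sl_last, h0, zero_mul, add_zero] at hy
        exact hy
      · right
        have h2 := dom1 hR hκ h b ω h0 y hy
        rw [← hlam] at h2
        have h3 : (y.natAbs : ℝ) ≤ lam * R := by
          rw [Nat.cast_natAbs]
          push_cast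
          exact h2
        have h4 : y.natAbs ≤ N := by rw [hN]; exact Nat.le_floor h3
        rw [mem_biUnion]
        exact ⟨y, mem_filter.2 ⟨mem_Icc.2 ⟨by omega, by omega⟩, hTy⟩,
          mem_filter.2 ⟨mem_univ _, hy⟩⟩
    have h2 := Set.ncard_le_ncard h1 (Finset.finite_toSet _)
    rw [Set.ncard_coe_finset] at h2
    have h3 := h2.trans ((card_union_le _ _).trans (Nat.add_le_add_left card_biUnion_le _))
    have h4 : (Set.ncard {ω : Fin (b + 1 + 1) → Ω | ∃ y : ℤ, (T : ℤ) ≤ |y| ∧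
        sl (b + 1) y g ω = 0} : ℝ) ≤
        ((univ.filter fun ω : Fin (b + 2) → Ω => g (ω (Fin.last _)) = 0 ∧
          p (Fin.init ω)).card : ℝ) +
        ∑ y ∈ (Icc (-(N : ℤ)) N).filter fun t => (T : ℤ) ≤ |t|,
          ((univ.filter fun ω : Fin (b + 2) → Ω =>
            sl (b + 1) y g ω = 0).card : ℝ) := by exact_mod_cast h3
    have h5 := card_top (by linarith : 0 ≤ R) h b p
    have h5a := hU Ω g R hR h T hT hTR
    have h5b : (Set.ncard {ω : Fin (b + 1) → Ω | ∃ y : ℤ, (T : ℤ) ≤ |y| ∧ sl b y g ω = 0} : ℝ) =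
        ((univ.filter p).card : ℝ) := by
      rw [← Set.ncard_coe_finset]
      congr 2
      ext ω
      rw [coe_filter, hp]
      simp
    rw [h5b] at h5a
    have h5' : ((univ.filter fun ω : Fin (b + 2) → Ω => g (ω (Fin.last _)) = 0 ∧
        p (Fin.init ω)).card : ℝ) * (T : ℝ) ^ (b + 1) ≤ κ * C * Q := by
      calc _ ≤ ((univ.filter fun ω : Fin (b + 2) → Ω => g (ω (Fin.last _)) = 0 ∧
            p (Fin.init ω)).card : ℝ) * (R * (T : ℝ) ^ b) := by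
            rw [pow_succ']
            gcongr
        _ = (((univ.filter fun ω : Fin (b + 2) → Ω => g (ω (Fin.last _)) = 0 ∧
            p (Fin.init ω)).card : ℝ) * R) * (T : ℝ) ^ b := by ring
        _ ≤ (κ * Fintype.card Ω * (univ.filter p).card) * (T : ℝ) ^ b := by gcongr
        _ = κ * Fintype.card Ω * (((univ.filter p).card : ℝ) * (T : ℝ) ^ b) := by ring
        _ ≤ κ * Fintype.card Ω * (C * (Fintype.card Ω : ℝ) ^ (b + 1)) := by gcongr
        _ = _ := by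
            rw [hQ]
            ring
    have h6 : ∀ y ∈ (Icc (-(N : ℤ)) N).filter (fun t => (T : ℤ) ≤ |t|),
        ((univ.filter fun ω : Fin (b + 2) → Ω =>
        sl (b + 1) y g ω = 0).card : ℝ) ≤ Kap κ lam (b + 1) * Q / (R * (T : ℝ) ^ (b + 1)) := by
      intro y hy
      rw [mem_filter, mem_Icc] at hy
      have hyR : |(y : ℝ)| ≤ lam * R := by
        refine le_trans ?_ hNle
        rw [abs_le]
        constructor
        · exact_mod_cast hy.1.1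
        · exact_mod_cast hy.1.2
      have h7 := fib_sl hR hκ hl h y hyR (b + 1) 0
      rw [← hQ] at h7
      have hm : (T : ℝ) ≤ max 1 |(y : ℝ)| := by
        refine le_trans ?_ (le_max_right _ _)
        exact_mod_cast hy.2
      rw [le_div_iff₀ (by positivity)]
      refine le_trans ?_ h7
      gcongr
    have h7 : ∑ y ∈ (Icc (-(N : ℤ)) N).filter (fun t => (T : ℤ) ≤ |t|),
        ((univ.filter fun ω : Fin (b + 2) → Ω => sl (b + 1) y g ω = 0).card : ℝ) ≤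
        3 * lam * Kap κ lam (b + 1) * Q / (T : ℝ) ^ (b + 1) := by
      refine (Finset.sum_le_card_nsmul _ _ _ h6).trans ?_
      rw [nsmul_eq_mul]
      have h8 : (((Icc (-(N : ℤ)) N).filter (fun t => (T : ℤ) ≤ |t|)).card : ℝ) ≤
          3 * lam * R := by
        have h9 := card_filter_le (Icc (-(N : ℤ)) N) (fun t => (T : ℤ) ≤ |t|)
        rw [card_I] at h9
        have h10 : (((Icc (-(N : ℤ)) N).filter (fun t => (T : ℤ) ≤ |t|)).card : ℝ) ≤
            2 * (N : ℝ) + 1 := by exact_mod_cast h9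
        linarith
      calc (((Icc (-(N : ℤ)) N).filter (fun t => (T : ℤ) ≤ |t|)).card : ℝ) *
            (Kap κ lam (b + 1) * Q / (R * (T : ℝ) ^ (b + 1)))
          ≤ 3 * lam * R * (Kap κ lam (b + 1) * Q / (R * (T : ℝ) ^ (b + 1))) := by gcongr
        _ = _ := by field_simp
    have h8 : (∑ y ∈ (Icc (-(N : ℤ)) N).filter (fun t => (T : ℤ) ≤ |t|),
        ((univ.filter fun ω : Fin (b + 2) → Ω => sl (b + 1) y g ω = 0).card : ℝ)) *
        (T : ℝ) ^ (b + 1) ≤ 3 * lam * Kap κ lam (b + 1) * Q := by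
      rw [← le_div_iff₀ (by positivity)]
      exact h7
    calc _ ≤ (((univ.filter fun ω : Fin (b + 2) → Ω => g (ω (Fin.last _)) = 0 ∧
          p (Fin.init ω)).card : ℝ) +
        ∑ y ∈ (Icc (-(N : ℤ)) N).filter fun t => (T : ℤ) ≤ |t|,
          ((univ.filter fun ω : Fin (b + 2) → Ω =>
            sl (b + 1) y g ω = 0).card : ℝ)) * (T : ℝ) ^ (b + 1) := by gcongr
      _ ≤ κ * C * Q + 3 * lam * Kap κ lam (b + 1) * Q := by
          rw [add_mul]
          exact add_le_add h5' h8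
      _ = _ := by ring

/-- one coordinate is not very large, the other one is large -/
theorem big2 (M : ℝ) (hM : 1 ≤ M) (a b : ℕ) : ∃ C : ℝ, 0 ≤ C ∧ ∀ H : ℕ, 1 ≤ H →
    (Set.ncard {u : Fin (b + 3) → Fin (a + 3) → Bx H | ∃ x y : ℤ, |(x : ℝ)| ≤ M * H ∧
      (H : ℤ) ≤ |y| ∧ sl (b + 2) y (sl (a + 2) x (gv H)) u = 0} : ℝ) ≤
      C * (H : ℝ) ^ (Fintype.card (Ix a b) - (b + 1)) := by
  classical
  have hKg := Kap_ge (κ := 3) (lam := M) (by norm_num) hM (a + 2)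
  have hK1 : 1 ≤ Kap 3 M (a + 2) := by
    refine le_trans ?_ hKg
    have : (0 : ℝ) ≤ ((a + 2 : ℕ) : ℝ) := by positivity
    nlinarith
  obtain ⟨C, hC0, hC⟩ := big1 (Kap 3 M (a + 2)) hK1 (b + 2)
  refine ⟨3 * M * C * 3 ^ Fintype.card (Ix a b), by positivity, fun H hH => ?_⟩
  have hHR : (1 : ℝ) ≤ H := by exact_mod_cast hH
  have hH0 : (0 : ℝ) < H := by linarith
  obtain ⟨N, hN⟩ : ∃ N : ℕ, N = ⌊M * H⌋₊ := ⟨_, rfl⟩
  have hNle : (N : ℝ) ≤ M * H := by rw [hN]; exact Nat.floor_le (by positivity)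
  have hMH : 1 ≤ M * H := by nlinarith
  obtain ⟨Z, hZ⟩ : ∃ Z : ℤ → Finset (Fin (b + 3) → Fin (a + 3) → Bx H), ∀ t, Z t =
      univ.filter fun u => ∃ y : ℤ, (H : ℤ) ≤ |y| ∧ sl (b + 2) y (sl (a + 2) t (gv H)) u = 0 :=
    ⟨_, fun _ => rfl⟩
  have h1 : {u : Fin (b + 3) → Fin (a + 3) → Bx H | ∃ x y : ℤ, |(x : ℝ)| ≤ M * H ∧
      (H : ℤ) ≤ |y| ∧ sl (b + 2) y (sl (a + 2) x (gv H)) u = 0} ⊆
      ((Icc (-(N : ℤ)) N).biUnion Z : Finset (Fin (b + 3) → Fin (a + 3) → Bx H)) := by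
    rintro u ⟨x, y, hx, hy, hz⟩
    have h3 : (x.natAbs : ℝ) ≤ M * H := by
      rw [Nat.cast_natAbs]
      push_cast
      exact hx
    have h4 : x.natAbs ≤ N := by rw [hN]; exact Nat.le_floor h3
    rw [mem_coe, mem_biUnion]
    refine ⟨x, mem_Icc.2 ⟨by omega, by omega⟩, ?_⟩
    rw [hZ, mem_filter]
    exact ⟨mem_univ _, y, hy, hz⟩
  have h2 := Set.ncard_le_ncard h1 (Finset.finite_toSet _)
  rw [Set.ncard_coe_finset] at h2
  have h3 := (Nat.cast_le (α := ℝ)).2 (h2.trans card_biUnion_le)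
  push_cast at h3
  have h4 : ∀ t ∈ Icc (-(N : ℤ)) N, ((Z t).card : ℝ) ≤
      C * (2 * (H : ℝ) + 1) ^ Fintype.card (Ix a b) / (H : ℝ) ^ (b + 2) := by
    intro t ht
    rw [mem_Icc] at ht
    have htR : |(t : ℝ)| ≤ M * H := by
      refine le_trans ?_ hNle
      rw [abs_le]
      constructor
      · exact_mod_cast ht.1
      · exact_mod_cast ht.2
    have hm : (1 : ℝ) ≤ max 1 |(t : ℝ)| := le_max_left _ _
    have hmp : (1 : ℝ) ≤ (max 1 |(t : ℝ)|) ^ (a + 2) := one_le_pow₀ hm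
    have h6 := spread_sl hHR (by norm_num : (1 : ℝ) ≤ 3) hM (spread_gv H hH) t htR (a + 2)
    have hR' : 1 ≤ (H : ℝ) * (max 1 |(t : ℝ)|) ^ (a + 2) := by nlinarith
    have h7 := hC (Fin (a + 3) → Bx H) (sl (a + 2) t (gv H)) _ hR' h6 H hH (by nlinarith)
    have h8 : (Set.ncard {ω : Fin (b + 2 + 1) → Fin (a + 3) → Bx H |
        ∃ y : ℤ, (H : ℤ) ≤ |y| ∧ sl (b + 2) y (sl (a + 2) t (gv H)) ω = 0} : ℝ) =
        ((Z t).card : ℝ) := by
      rw [← Set.ncard_coe_finset]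
      congr 2
      ext u
      rw [hZ, coe_filter]
      simp
    rw [h8, Fintype.card_fun, Fintype.card_fin, card_Bx] at h7
    push_cast at h7
    rw [le_div_iff₀ (by positivity)]
    refine h7.trans (le_of_eq ?_)
    rw [← pow_mul, card_Ix]
    congr 2
    ring
  refine h3.trans ((Finset.sum_le_card_nsmul _ _ _ h4).trans ?_)
  rw [nsmul_eq_mul, card_I]
  have h5 : ((2 * N + 1 : ℕ) : ℝ) ≤ 3 * M * H := by
    push_cast
    linarith
  have h6 : (2 * (H : ℝ) + 1) ^ Fintype.card (Ix a b) ≤ 3 ^ Fintype.card (Ix a b) *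
      (H : ℝ) ^ Fintype.card (Ix a b) := by
    rw [← mul_pow]
    gcongr
    linarith
  have h7 : (H : ℝ) ^ Fintype.card (Ix a b) * H = (H : ℝ) ^ (Fintype.card (Ix a b) - (b + 1)) *
      (H : ℝ) ^ (b + 2) := by
    rw [← pow_succ, ← pow_add]
    congr 1
    have : b + 1 ≤ Fintype.card (Ix a b) := by
      rw [card_Ix]
      nlinarith
    omega
  calc ((2 * N + 1 : ℕ) : ℝ) * (C * (2 * (H : ℝ) + 1) ^ Fintype.card (Ix a b) / (H : ℝ) ^ (b + 2))
      ≤ (3 * M * H) * (C * (3 ^ Fintype.card (Ix a b) * (H : ℝ) ^ Fintype.card (Ix a b)) /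
        (H : ℝ) ^ (b + 2)) := by gcongr
    _ = 3 * M * C * 3 ^ Fintype.card (Ix a b) * ((H : ℝ) ^ Fintype.card (Ix a b) * H) /
        (H : ℝ) ^ (b + 2) := by ring
    _ = _ := by
      rw [h7]
      field_simp

/-- the monomials of degree at most `min a b + 2` -/
noncomputable def fmB (a b : ℕ) : Fm (min a b + 2) (Ix a b) where
  mon p P := P.1 ^ (p.2 : ℕ) * P.2 ^ (p.1 : ℕ)
  em q := (⟨q.1.1 - q.1.2, by
      have h1 := (mem_I.1 q.2).1
      have h2 := min_le_right a b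
      omega⟩, ⟨q.1.2, by
      have h1 := mem_I.1 q.2
      have h2 := min_le_left a b
      omega⟩)
  inj := by
    intro q q' h
    rw [Prod.mk.injEq, Fin.mk.injEq, Fin.mk.injEq] at h
    have h1 := mem_I.1 q.2
    have h2 := mem_I.1 q'.2
    apply Subtype.ext
    apply Prod.ext <;> omega
  hmon q P := rfl

/-- the top monomial -/
def tp (a b : ℕ) : Ix a b := ix a b (a + 2) (b + 2) (by omega) (by omega)

lemma tp_notMem (a b : ℕ) : tp a b ∉ (fmB a b).rg := by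
  intro h
  obtain ⟨q, hq⟩ := (fmB a b).mem_rg.1 h
  have h1 := mem_I.1 q.2
  have h2 := congrArg (fun p : Ix a b => (p.1 : ℕ)) hq
  have h3 := congrArg (fun p : Ix a b => (p.2 : ℕ)) hq
  have h4 : q.1.1 - q.1.2 = b + 2 := h2
  have h5 : q.1.2 = a + 2 := h3
  have h6 := min_le_left a b
  omega

lemma Ev_eq (a b : ℕ) (w : Ix a b → ℤ) (P : ℤ × ℤ) : (fmB a b).Ev w P = G w P.1 P.2 := by
  unfold Fm.Ev G
  refine Finset.sum_congr rfl fun p _ => ?_
  show w p * (P.1 ^ (p.2 : ℕ) * P.2 ^ (p.1 : ℕ)) = _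
  ring

theorem fewBig {a b k : ℕ} (hk : k ≤ min a b) : (fmB a b).FewBig (tp a b) k := by
  classical
  obtain ⟨M, hM⟩ : ∃ M : ℝ, M = (Fintype.card (Ix a b) : ℝ) := ⟨_, rfl⟩
  have hM1 : 1 ≤ M := by
    rw [hM]
    have := card_Ix_ge a b
    exact_mod_cast (by omega : 1 ≤ Fintype.card (Ix a b))
  obtain ⟨C1, hC10, hC1⟩ := big2 M hM1 a b
  obtain ⟨C2, hC20, hC2⟩ := big2 M hM1 b a
  obtain ⟨n, hn⟩ : ∃ n, n = Fintype.card (Ix a b) := ⟨_, rfl⟩
  have hnn : Fintype.card (Ix b a) = n := by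
    rw [hn, card_Ix, card_Ix, mul_comm]
  rw [hnn] at hC2
  rw [← hn] at hC1
  refine ⟨C1 + C2 + 7 ^ n, by positivity, fun H hH T hT hz => ?_⟩
  rw [← hn]
  have hHR : (1 : ℝ) ≤ H := by exact_mod_cast hH
  have hH0 : (0 : ℝ) < H := by linarith
  have hka := min_le_left a b
  have hkb := min_le_right a b
  rcases Nat.lt_or_ge H 4 with h4 | h4
  · have h5 := card_le_card hT
    rw [Pool.Agent.R414.DN.card_ibox, ← hn] at h5
    have h6 : (T.card : ℝ) ≤ 7 ^ n := by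
      have h7 : (2 * H + 1) ^ n ≤ 7 ^ n := Nat.pow_le_pow_left (by omega) n
      exact_mod_cast h5.trans h7
    have h7 : (1 : ℝ) ≤ (H : ℝ) ^ (n - (k + 1)) := one_le_pow₀ hHR
    have h8 : (0 : ℝ) ≤ 7 ^ n := by positivity
    nlinarith
  · obtain ⟨A1, hA1⟩ : ∃ A1 : Set (Ix a b → ℤ), A1 = {w : Ix a b → ℤ | (∀ p, |w p| ≤ (H : ℤ)) ∧
      ∃ x y : ℤ,
      |(x : ℝ)| ≤ M * H ∧ (H : ℤ) ≤ |y| ∧ G w x y = 0} := ⟨_, rfl⟩
    obtain ⟨A2, hA2⟩ : ∃ A2 : Set (Ix a b → ℤ), A2 = {w : Ix a b → ℤ | (∀ p, |w p| ≤ (H : ℤ)) ∧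
      ∃ x y : ℤ,
      |(y : ℝ)| ≤ M * H ∧ (H : ℤ) ≤ |x| ∧ G w x y = 0} := ⟨_, rfl⟩
    have hfin1 : A1.Finite := (ibox (Ix a b) H).finite_toSet.subset fun w h => by
      rw [hA1] at h
      exact mem_ibox.2 h.1
    have hfin2 : A2.Finite := (ibox (Ix a b) H).finite_toSet.subset fun w h => by
      rw [hA2] at h
      exact mem_ibox.2 h.1
    have hsub : (T : Set (Ix a b → ℤ)) ⊆ A1 ∪ A2 := by
      intro w hw
      obtain ⟨g1, P, g2, g3⟩ := hz w (mem_coe.1 hw)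
      have hw' := mem_ibox.1 (hT (mem_coe.1 hw))
      rw [Ev_eq] at g3
      have g4 : (H : ℤ) ≤ |P.1| ∨ (H : ℤ) ≤ |P.2| := by
        unfold sz at g2
        rcases le_max_iff.1 g2 with h | h
        · left
          rw [Int.abs_eq_natAbs]
          omega
        · right
          rw [Int.abs_eq_natAbs]
          omega
      rw [hA1, hA2]
      rcases le_or_gt |(P.1 : ℝ)| (M * H) with h3 | h3
      · rcases g4 with g5 | g5
        · rcases le_or_gt |(P.2 : ℝ)| (M * H) with h6 | h6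
          · exact Or.inr ⟨hw', P.1, P.2, h6, g5, g3⟩
          · refine Or.inl ⟨hw', P.1, P.2, h3, ?_, g3⟩
            have h7 : (H : ℝ) ≤ |(P.2 : ℝ)| := by nlinarith
            exact_mod_cast h7
        · exact Or.inl ⟨hw', P.1, P.2, h3, g5, g3⟩
      · have h6 : |(P.2 : ℝ)| ≤ M * H := by
          by_contra h7
          push Not at h7
          apply g1
          exact (struct w H hw' M hM 1 one_pos le_rfl (by
            rw [div_one]
            exact_mod_cast h4) P.1 P.2 h3 h7 g3).1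
        refine Or.inr ⟨hw', P.1, P.2, h6, ?_, g3⟩
        have h7 : (H : ℝ) ≤ |(P.1 : ℝ)| := by nlinarith
        exact_mod_cast h7
    have h1 := (Set.ncard_le_ncard hsub (hfin1.union hfin2)).trans (Set.ncard_union_le _ _)
    rw [Set.ncard_coe_finset] at h1
    have b1 : A1.ncard ≤ Set.ncard {u : Fin (b + 3) → Fin (a + 3) → Bx H | ∃ x y : ℤ,
        |(x : ℝ)| ≤ M * H ∧ (H : ℤ) ≤ |y| ∧ sl (b + 2) y (sl (a + 2) x (gv H)) u = 0} := by
      have h2 : A1 ⊆ (fun (u : Fin (b + 3) → Fin (a + 3) → Bx H) (p : Ix a b) =>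
          gv H (u p.1 p.2)) '' {u : Fin (b + 3) → Fin (a + 3) → Bx H | ∃ x y : ℤ,
          |(x : ℝ)| ≤ M * H ∧ (H : ℤ) ≤ |y| ∧ sl (b + 2) y (sl (a + 2) x (gv H)) u = 0} := by
        rw [hA1]
        rintro w ⟨hw, x, y, g1, g2, g3⟩
        refine ⟨fun j i => ⟨w (j, i), mem_Icc.2 (abs_le.1 (hw (j, i)))⟩, ⟨x, y, g1, g2, ?_⟩, rfl⟩
        rw [sl_sl]
        exact g3
      exact (Set.ncard_le_ncard h2 ((Set.toFinite _).image _)).trans
        (Set.ncard_image_le (Set.toFinite _))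
    have b2 : A2.ncard ≤ Set.ncard {u : Fin (a + 3) → Fin (b + 3) → Bx H | ∃ x y : ℤ,
        |(x : ℝ)| ≤ M * H ∧ (H : ℤ) ≤ |y| ∧ sl (a + 2) y (sl (b + 2) x (gv H)) u = 0} := by
      have h2 : A2 ⊆ (fun (u : Fin (a + 3) → Fin (b + 3) → Bx H) (p : Ix a b) =>
          gv H (u p.2 p.1)) '' {u : Fin (a + 3) → Fin (b + 3) → Bx H | ∃ x y : ℤ,
          |(x : ℝ)| ≤ M * H ∧ (H : ℤ) ≤ |y| ∧ sl (a + 2) y (sl (b + 2) x (gv H)) u = 0} := by
        rw [hA2]
        rintro w ⟨hw, x, y, g1, g2, g3⟩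
        refine ⟨fun i j => ⟨w (j, i), mem_Icc.2 (abs_le.1 (hw (j, i)))⟩, ⟨y, x, g1, g2, ?_⟩, rfl⟩
        rw [sl_sl']
        exact g3
      exact (Set.ncard_le_ncard h2 ((Set.toFinite _).image _)).trans
        (Set.ncard_image_le (Set.toFinite _))
    have c1 := hC1 H hH
    have c2 := hC2 H hH
    have d1 : (H : ℝ) ^ (n - (b + 1)) ≤ (H : ℝ) ^ (n - (k + 1)) :=
      pow_le_pow_right₀ hHR (by omega)
    have d2 : (H : ℝ) ^ (n - (a + 1)) ≤ (H : ℝ) ^ (n - (k + 1)) :=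
      pow_le_pow_right₀ hHR (by omega)
    have h2 : (T.card : ℝ) ≤ (A1.ncard : ℝ) + A2.ncard := by exact_mod_cast h1
    have h3 : (A1.ncard : ℝ) ≤ C1 * (H : ℝ) ^ (n - (k + 1)) := by
      calc (A1.ncard : ℝ) ≤ _ := by exact_mod_cast b1
        _ ≤ _ := c1
        _ ≤ _ := by gcongr
    have h5 : (A2.ncard : ℝ) ≤ C2 * (H : ℝ) ^ (n - (k + 1)) := by
      calc (A2.ncard : ℝ) ≤ _ := by exact_mod_cast b2
        _ ≤ _ := c2
        _ ≤ _ := by gcongr
    have h6 : (0 : ℝ) ≤ 7 ^ n * (H : ℝ) ^ (n - (k + 1)) := by positivity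
    nlinarith

end Pool.Agent.Run7.h953.KB
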