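import Pool.Agent.Run7.h953.KB.Irr
import Pool.Agent.Run7.h953.KP.Asm

set_option autoImplicit false
set_option linter.unusedSectionVars false

/-! The tail of the law for bounded bidegree. -/

open Filter Topology Finset

namespace Pool.Agent.Run7.h953.KB

open Pool.Agent.R414.DN Pool.Agent.N656.LL Pool.Agent.Run7.h953.KP
open Pool.Agent.N656.BD (Ix G pB ex eval_pB coeff_pB coeff_pB_of_ne card_Ix pB_smul)

lemma low_aux {e : ℕ} {ι : Type} [Fintype ι] [DecidableEq ι] (M : Fm e ι) {k m : ℕ} (hk : 1 ≤ k)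
    (hke : k ≤ e + 1) (hm : 1 ≤ m) {B : ℤ × ℤ → ℕ} (hB : ∀ p P, |M.mon p P| ≤ (B P : ℤ))
    (hB1 : ∀ P, 1 ≤ B P) (S₀ : Finset (ℤ × ℤ)) (hS₀ : S₀.card = k - 1) (u : ℕ → ℤ × ℤ)
    (hu : Function.Injective u) (hsz : ∀ x, sz (u x) = x) (hnot : ∀ x, 1 ≤ x → u x ∉ S₀)
    (hBu : ∀ x, 1 ≤ x → B (u x) ≤ x ^ m) : ∃ c : ℝ, 0 < c ∧ ∀ T : ℕ, 1 ≤ T →
    ∃ F : Finset (Finset (ℤ × ℤ)), (∀ S ∈ F, S.card = k ∧ ∃ P ∈ S, T < sz P) ∧
      c / (T : ℝ) ^ (m - 1) ≤ ∑ S ∈ F, M.V S := by
  classical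
  obtain ⟨c₀, hc₀⟩ : ∃ c₀ : ℝ, c₀ = 1 / (3 * (Fintype.card ι : ℝ)) ^ (e + 1) := ⟨_, rfl⟩
  have hN := M.le_card
  have hM0 : (0 : ℝ) < Fintype.card ι := by exact_mod_cast (by omega : 0 < Fintype.card ι)
  have hc0 : 0 < c₀ := by rw [hc₀]; positivity
  obtain ⟨p₀, hp₀⟩ : ∃ p₀ : ℕ, p₀ = ∏ P ∈ S₀, B P := ⟨_, rfl⟩
  have hp1 : 1 ≤ p₀ := by
    rw [hp₀]
    exact Nat.one_le_iff_ne_zero.2 (prod_ne_zero_iff.2 fun P _ => by have := hB1 P; omega)
  have hp0 : (0 : ℝ) < p₀ := by exact_mod_cast hp1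
  refine ⟨c₀ / (2 ^ m * p₀), by positivity, fun T hT => ?_⟩
  have hT0 : (0 : ℝ) < T := by exact_mod_cast hT
  obtain ⟨X, hX⟩ : ∃ X : Finset ℕ, X = Ioc T (2 * T) := ⟨_, rfl⟩
  have hXc : X.card = T := by
    rw [hX, Nat.card_Ioc]
    omega
  have hXm : ∀ x ∈ X, T < x ∧ x ≤ 2 * T := by
    intro x hx
    rw [hX, mem_Ioc] at hx
    exact hx
  have hinj : Set.InjOn (fun x => insert (u x) S₀) (X : Set ℕ) := by
    intro x hx y hy h
    simp only at h
    have hx' := hXm x (mem_coe.1 hx)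
    have h1 : u x ∈ insert (u y) S₀ := by
      rw [← h]
      exact mem_insert_self _ _
    rcases mem_insert.1 h1 with h2 | h2
    · exact hu h2
    · exact absurd h2 (hnot x (by omega))
  refine ⟨X.image fun x => insert (u x) S₀, ?_, ?_⟩
  · intro S hS
    rw [mem_image] at hS
    obtain ⟨x, hx, rfl⟩ := hS
    have hx' := hXm x hx
    refine ⟨?_, u x, mem_insert_self _ _, ?_⟩
    · rw [card_insert_of_notMem (hnot x (by omega)), hS₀]
      omega
    · rw [hsz]
      exact hx'.1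
  · rw [sum_image hinj]
    have h1 : ∀ x ∈ X, c₀ / (2 ^ m * p₀) / (T : ℝ) ^ m ≤ M.V (insert (u x) S₀) := by
      intro x hx
      have hx' := hXm x hx
      have hn := hnot x (by omega)
      have h2 := M.V_ge hB hB1 (insert (u x) S₀) (by
        rw [card_insert_of_notMem hn, hS₀]
        omega)
      rw [← hc₀, prod_insert hn, ← hp₀] at h2
      refine le_trans ?_ h2
      rw [div_div]
      apply div_le_div_of_nonneg_left hc0.le
      · exact_mod_cast Nat.mul_pos (hB1 _) hp1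
      · have h3 : (B (u x) : ℝ) ≤ (2 * T) ^ m := by
          calc (B (u x) : ℝ) ≤ ((x ^ m : ℕ) : ℝ) := by exact_mod_cast hBu x (by omega)
            _ = (x : ℝ) ^ m := by push_cast; ring
            _ ≤ (2 * T) ^ m := by
              gcongr
              exact_mod_cast hx'.2
        push_cast
        calc (B (u x) : ℝ) * p₀ ≤ (2 * T) ^ m * p₀ := by gcongr
          _ = _ := by
            rw [mul_pow]
            ring
    refine le_trans (le_of_eq ?_) (card_nsmul_le_sum _ _ _ h1)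
    rw [hXc, nsmul_eq_mul]
    have h2 : (T : ℝ) ^ m = (T : ℝ) ^ (m - 1) * T := by
      rw [← pow_succ]
      congr 1
      omega
    rw [h2]
    field_simp

/-- **The tail, lower bound.** -/
theorem tail_lowB {a b k : ℕ} (hk : 1 ≤ k) (hke : k ≤ min a b + 3) : ∃ c : ℝ, 0 < c ∧
    ∀ T : ℕ, 1 ≤ T → ∃ F : Finset (Finset (ℤ × ℤ)), (∀ S ∈ F, S.card = k ∧ ∃ P ∈ S, T < sz P) ∧
      c / (T : ℝ) ^ (min a b + 1) ≤ ∑ S ∈ F, (fmB a b).V S := by
  classical
  have hB1 : ∀ P : ℤ × ℤ, 1 ≤ (max 1 P.1.natAbs) ^ (a + 2) * (max 1 P.2.natAbs) ^ (b + 2) := by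
    intro P
    have h1 : 1 ≤ max 1 P.1.natAbs := le_max_left _ _
    have h2 : 1 ≤ max 1 P.2.natAbs := le_max_left _ _
    exact Nat.mul_pos (Nat.pow_pos h1) (Nat.pow_pos h2)
  obtain ⟨r, hr⟩ : ∃ r, r = min a b + 1 := ⟨_, rfl⟩
  rw [← hr]
  rcases le_total a b with hab | hab
  · have hra : r = a + 1 := by rw [hr, min_eq_left hab]
    rw [hra]
    have h1 := low_aux (fmB a b) (k := k) (m := a + 2) hk (by omega) (by omega)
      (B := fun P => (max 1 P.1.natAbs) ^ (a + 2) * (max 1 P.2.natAbs) ^ (b + 2)) mon_le hB1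
      ((range (k - 1)).image fun j : ℕ => ((0 : ℤ), (j : ℤ) + 1)) (by
        rw [card_image_of_injective _ (fun i j h => by
          have := congrArg Prod.snd h
          simp only at this
          omega), card_range])
      (fun x => ((x : ℤ), 0)) (fun x y h => by
        have := congrArg Prod.fst h
        simp only at this
        exact_mod_cast this) (fun x => by
        unfold sz
        simp) (fun x hx h => by
        rw [mem_image] at h
        obtain ⟨j, -, h⟩ := h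
        have := congrArg Prod.fst h
        simp only at this
        omega) (fun x hx => by
        simp only [Int.natAbs_natCast, Int.natAbs_zero]
        rw [max_eq_right hx, max_eq_left (Nat.zero_le 1), one_pow, mul_one])
    exact h1
  · have hra : r = b + 1 := by rw [hr, min_eq_right hab]
    rw [hra]
    have h1 := low_aux (fmB a b) (k := k) (m := b + 2) hk (by omega) (by omega)
      (B := fun P => (max 1 P.1.natAbs) ^ (a + 2) * (max 1 P.2.natAbs) ^ (b + 2)) mon_le hB1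
      ((range (k - 1)).image fun j : ℕ => ((j : ℤ) + 1, (0 : ℤ))) (by
        rw [card_image_of_injective _ (fun i j h => by
          have := congrArg Prod.fst h
          simp only at this
          omega), card_range])
      (fun x => (0, (x : ℤ))) (fun x y h => by
        have := congrArg Prod.snd h
        simp only at this
        exact_mod_cast this) (fun x => by
        unfold sz
        simp) (fun x hx h => by
        rw [mem_image] at h
        obtain ⟨j, -, h⟩ := h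
        have := congrArg Prod.snd h
        simp only at this
        omega) (fun x hx => by
        simp only [Int.natAbs_natCast, Int.natAbs_zero]
        rw [max_eq_right hx, max_eq_left (Nat.zero_le 1), one_pow, one_mul])
    exact h1

/-- the sets of the type -/
lemma datF_N {e : ℕ} {ι : Type} [Fintype ι] [DecidableEq ι] (M : Fm e ι) {k : ℕ} (he : k + 5 ≤ e)
    (t : ι) (ht : t ∉ M.rg) (hb : M.FewBig t k) {A : Set (Finset (ℤ × ℤ))}
    (hA : ∀ S ∈ A, S.card = k) (H : ℕ) :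
    (M.datF he t ht hb).N (inT k A) H = (Set.ncard {w : ι → ℤ | w ∈ M.fam t H ∧ ∃ S ∈ A,
      ∀ P ∈ S, M.Ev w P = 0} : ℝ) := by
  unfold LawData.N
  congr 2
  ext a
  constructor
  · rintro ⟨h1, i, h2, h3⟩
    exact ⟨h1, i.1, h2, h3⟩
  · rintro ⟨h1, S, h2, h3⟩
    exact ⟨h1, ⟨S, hA S h2⟩, h2, h3⟩

lemma datF_wt {e : ℕ} {ι : Type} [Fintype ι] [DecidableEq ι] (M : Fm e ι) {k : ℕ} (he : k + 5 ≤ e)
    (t : ι) (ht : t ∉ M.rg) (hb : M.FewBig t k) {A : Set (Finset (ℤ × ℤ))}
    (hA : ∀ S ∈ A, S.card = k) :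
    (M.datF he t ht hb).wt (inT k A) = ∑' S : A, M.V S.1 := by
  have h1 : (M.datF he t ht hb).wt (inT k A) =
      ∑' i, (inT k A).indicator (fun i : {S : Finset (ℤ × ℤ) // S.card = k} => M.V i.1) i := rfl
  rw [h1, ← _root_.tsum_subtype]
  exact ((Equiv.tsum_eq (⟨fun S : A => (⟨⟨S.1, hA S.1 S.2⟩, S.2⟩ : ↥(inT k A)),
    fun i => ⟨i.1.1, i.2⟩, fun S => rfl, fun i => rfl⟩ : A ≃ ↥(inT k A))
    (fun i => M.V i.1.1))).symm

end Pool.Agent.Run7.h953.KB
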