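import Pool.Agent.Run7.h953.KB.Law
import Pool.Agent.Run7.h953.KP.Tl

set_option autoImplicit false
set_option linter.unusedSectionVars false

/-! Curves with monomials in an arbitrary finite set which contains all monomials of small degree:
the limit law for polynomials with finitely many zeros. -/

open Filter Topology Finset

namespace Pool.Agent.Run7.h953.KB

open Pool.Agent.R414.DN Pool.Agent.N656.LL Pool.Agent.Run7.h953.KP

variable {e : ℕ} {ι : Type} [Fintype ι] [DecidableEq ι] (M : Fm e ι)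

namespace Fm

open Classical in
/-- the polynomials of the box with a nonzero coefficient at `t` and finitely many zeros -/
noncomputable def fam (t : ι) (H : ℕ) : Finset (ι → ℤ) :=
  (ibox ι H).filter fun w => w t ≠ 0 ∧ {P : ℤ × ℤ | M.Ev w P = 0}.Finite

lemma mem_fam {t : ι} {H : ℕ} {w : ι → ℤ} : w ∈ M.fam t H ↔
    w ∈ ibox ι H ∧ w t ≠ 0 ∧ {P : ℤ × ℤ | M.Ev w P = 0}.Finite := by
  classical
  unfold fam
  rw [mem_filter]

/-- infinitely many zeros -/
lemma exists_large {w : ι → ℤ} (h : ¬ {P : ℤ × ℤ | M.Ev w P = 0}.Finite) (H : ℕ) :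
    ∃ P : ℤ × ℤ, H ≤ sz P ∧ M.Ev w P = 0 := by
  by_contra hcon
  push Not at hcon
  apply h
  apply (bx H).finite_toSet.subset
  intro P hP
  rw [mem_coe, mem_bx]
  by_contra h1
  exact hcon P (by omega) hP

theorem lim_fin {k : ℕ} (hk : k ≤ e) (t : ι) (ht : t ∉ M.rg) (hb : M.FewBig t k)
    (S : Finset (ℤ × ℤ)) (hS : S.card = k) :
    Tendsto (fun H : ℕ => (Set.ncard {w : ι → ℤ | w ∈ M.fam t H ∧ ∀ P ∈ S, M.Ev w P = 0} : ℝ) /
      (H : ℝ) ^ (Fintype.card ι - k)) atTop (𝓝 (M.V S)) := by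
  classical
  obtain ⟨C, hC, hb⟩ := hb
  have h1 := M.lim_ne S (by omega) t ht
  rw [hS] at h1
  have hN := M.le_card
  have h2 : Tendsto (fun H : ℕ => C / (H : ℝ)) atTop (𝓝 0) :=
    tendsto_const_nhds.div_atTop tendsto_natCast_atTop_atTop
  have h3 := h1.sub h2
  rw [sub_zero] at h3
  refine tendsto_of_tendsto_of_tendsto_of_le_of_le' h3 h1 ?_ ?_
  · filter_upwards [eventually_ge_atTop 1] with H hH
    have hH0 : (0 : ℝ) < H := by exact_mod_cast hH
    obtain ⟨Z, hZ⟩ : ∃ Z : Finset (ι → ℤ), Z = (ibox ι H).filter fun w =>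
      w t ≠ 0 ∧ ¬ {P : ℤ × ℤ | M.Ev w P = 0}.Finite := ⟨_, rfl⟩
    have h4 := hb H hH Z (by rw [hZ]; exact filter_subset _ _) (by
      intro w hw
      rw [hZ, mem_filter] at hw
      exact ⟨hw.2.1, M.exists_large hw.2.2 H⟩)
    have h5 : {w : ι → ℤ | w ∈ (ibox ι H).filter (fun w => w t ≠ 0) ∧ ∀ P ∈ S, M.Ev w P = 0} ⊆
        {w : ι → ℤ | w ∈ M.fam t H ∧ ∀ P ∈ S, M.Ev w P = 0} ∪ (Z : Set (ι → ℤ)) := by
      rintro w ⟨g1, g2⟩
      rw [mem_filter] at g1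
      by_cases g3 : {P : ℤ × ℤ | M.Ev w P = 0}.Finite
      · exact Or.inl ⟨M.mem_fam.2 ⟨g1.1, g1.2, g3⟩, g2⟩
      · right
        rw [hZ, mem_coe, mem_filter]
        exact ⟨g1.1, g1.2, g3⟩
    have hfin : ({w : ι → ℤ | w ∈ M.fam t H ∧ ∀ P ∈ S, M.Ev w P = 0} ∪
        (Z : Set (ι → ℤ))).Finite :=
      ((M.fam t H).finite_toSet.subset fun w h => h.1).union Z.finite_toSet
    have h6 := (Set.ncard_le_ncard h5 hfin).trans (Set.ncard_union_le _ _)
    rw [Set.ncard_coe_finset] at h6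
    have h7 := (Nat.cast_le (α := ℝ)).2 h6
    push_cast at h7
    have e1 : (H : ℝ) ^ (Fintype.card ι - k) = (H : ℝ) ^ (Fintype.card ι - (k + 1)) * H := by
      rw [← pow_succ]
      congr 1
      omega
    rw [sub_le_iff_le_add, ← sub_le_iff_le_add']
    have h8 : (Set.ncard {w : ι → ℤ | w ∈ (ibox ι H).filter (fun w => w t ≠ 0) ∧
        ∀ P ∈ S, M.Ev w P = 0} : ℝ) / (H : ℝ) ^ (Fintype.card ι - k) -
        (Set.ncard {w : ι → ℤ | w ∈ M.fam t H ∧ ∀ P ∈ S, M.Ev w P = 0} : ℝ) /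
          (H : ℝ) ^ (Fintype.card ι - k) ≤
        C * (H : ℝ) ^ (Fintype.card ι - (k + 1)) / (H : ℝ) ^ (Fintype.card ι - k) := by
      rw [← sub_div]
      gcongr
      linarith
    refine h8.trans (le_of_eq ?_)
    rw [e1]
    field_simp
  · filter_upwards [eventually_ge_atTop 1] with H hH
    have hH0 : (0 : ℝ) < H := by exact_mod_cast hH
    apply div_le_div_of_nonneg_right _ (by positivity)
    have h5 : {w : ι → ℤ | w ∈ M.fam t H ∧ ∀ P ∈ S, M.Ev w P = 0} ⊆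
        {w : ι → ℤ | w ∈ (ibox ι H).filter (fun w => w t ≠ 0) ∧ ∀ P ∈ S, M.Ev w P = 0} := by
      rintro w ⟨h, h'⟩
      have h6 := M.mem_fam.1 h
      exact ⟨mem_filter.2 ⟨h6.1, h6.2.1⟩, h'⟩
    have hfin : {w : ι → ℤ | w ∈ (ibox ι H).filter (fun w => w t ≠ 0) ∧
        ∀ P ∈ S, M.Ev w P = 0}.Finite :=
      ((ibox ι H).filter (fun w => w t ≠ 0)).finite_toSet.subset fun w h => h.1
    exact_mod_cast Set.ncard_le_ncard h5 hfin

/-- **The data of the limit law.** -/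
noncomputable def datF {k : ℕ} (he : k + 5 ≤ e) (t : ι) (ht : t ∉ M.rg) (hb : M.FewBig t k) :
    LawData where
  ι := {S : Finset (ℤ × ℤ) // S.card = k}
  α := ι → ℤ
  S H := M.fam t H
  Z w i := ∀ P ∈ i.1, M.Ev w P = 0
  v i := M.V i.1
  n := Fintype.card ι - k
  hv i := M.V_pos i.1
  lim i := M.lim_fin (by omega) t ht hb i.1 i.2
  two i j hij := by
    have h1 := (M.dat he t ht hb).two i j hij
    refine squeeze_zero (fun H => by positivity) (fun H => ?_) h1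
    apply div_le_div_of_nonneg_right _ (pow_nonneg (Nat.cast_nonneg H) _)
    have hfin : {w : ι → ℤ | w ∈ (ibox ι H).filter (fun w => w t ≠ 0) ∧
        (∀ P ∈ i.1, M.Ev w P = 0) ∧ ∀ P ∈ j.1, M.Ev w P = 0}.Finite :=
      ((ibox ι H).filter (fun w => w t ≠ 0)).finite_toSet.subset fun a h => h.1
    have hsub : {w : ι → ℤ | w ∈ M.fam t H ∧
        (∀ P ∈ i.1, M.Ev w P = 0) ∧ ∀ P ∈ j.1, M.Ev w P = 0} ⊆
        {w : ι → ℤ | w ∈ (ibox ι H).filter (fun w => w t ≠ 0) ∧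
        (∀ P ∈ i.1, M.Ev w P = 0) ∧ ∀ P ∈ j.1, M.Ev w P = 0} := by
      rintro w ⟨h, h'⟩
      have h6 := M.mem_fam.1 h
      exact ⟨mem_filter.2 ⟨h6.1, h6.2.1⟩, h'⟩
    exact (Nat.cast_le (α := ℝ)).2 (Set.ncard_le_ncard hsub hfin)
  tail ε hε := by
    obtain ⟨F, hF⟩ := (M.dat he t ht hb).tail ε hε
    refine ⟨F, ?_⟩
    filter_upwards [hF] with H hH
    refine le_trans ?_ hH
    apply div_le_div_of_nonneg_right _ (pow_nonneg (Nat.cast_nonneg H) _)
    have hfin : {w : ι → ℤ | w ∈ (ibox ι H).filter (fun w => w t ≠ 0) ∧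
        ∃ i : {S : Finset (ℤ × ℤ) // S.card = k}, i ∉ F ∧ ∀ P ∈ i.1, M.Ev w P = 0}.Finite :=
      ((ibox ι H).filter (fun w => w t ≠ 0)).finite_toSet.subset fun a h => h.1
    have hsub : {w : ι → ℤ | w ∈ M.fam t H ∧
        ∃ i : {S : Finset (ℤ × ℤ) // S.card = k}, i ∉ F ∧ ∀ P ∈ i.1, M.Ev w P = 0} ⊆
        {w : ι → ℤ | w ∈ (ibox ι H).filter (fun w => w t ≠ 0) ∧
        ∃ i : {S : Finset (ℤ × ℤ) // S.card = k}, i ∉ F ∧ ∀ P ∈ i.1, M.Ev w P = 0} := by
      rintro w ⟨h, h'⟩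
      have h6 := M.mem_fam.1 h
      exact ⟨mem_filter.2 ⟨h6.1, h6.2.1⟩, h'⟩
    exact (Nat.cast_le (α := ℝ)).2 (Set.ncard_le_ncard hsub hfin)

/-! ### bounds for the density -/

/-- the upper bound -/
theorem V_le (S : Finset (ℤ × ℤ)) (hS : S.card ≤ e + 1) :
    M.V S ≤ CG e ι / pt S ^ (e + 1 - S.card) := by
  classical
  refine le_of_tendsto (M.lim S hS) ?_
  obtain ⟨N, hN⟩ := exists_nat_ge (pt S)
  filter_upwards [eventually_ge_atTop N, eventually_ge_atTop 1] with H hH hH1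
  have hp : pt S ≤ H := hN.trans (by exact_mod_cast hH)
  have hc : Set.ncard {w : ι → ℤ | w ∈ ibox ι H ∧ ∀ P ∈ S, M.Ev w P = 0} =
      ((ibox ι H).filter fun w => ∀ P ∈ S, M.Ev w P = 0).card := by
    rw [← Set.ncard_coe_finset]
    congr 1
    ext a
    rw [mem_coe, mem_filter]
    rfl
  rw [hc]
  have h2 := M.count_small hH1 S hS hp
    ((ibox ι H).filter fun w => ∀ P ∈ S, M.Ev w P = 0) (filter_subset _ _)
    (fun a ha => (mem_filter.1 ha).2)
  have hH0 : (0 : ℝ) < H := by exact_mod_cast hH1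
  rw [div_le_iff₀ (by positivity)]
  refine h2.trans (le_of_eq ?_)
  ring

/-- a bound for the values -/
lemma Ev_le {B : ℤ × ℤ → ℕ} (hB : ∀ p P, |M.mon p P| ≤ (B P : ℤ)) {H : ℕ} {w : ι → ℤ}
    (hw : w ∈ ibox ι H) (P : ℤ × ℤ) : |M.Ev w P| ≤ ((Fintype.card ι * H * B P : ℕ) : ℤ) := by
  unfold Ev
  refine (abs_sum_le_sum_abs _ _).trans ?_
  have h1 : ∀ p ∈ (univ : Finset ι), |w p * M.mon p P| ≤ ((H * B P : ℕ) : ℤ) := by
    intro p _
    rw [abs_mul, Nat.cast_mul]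
    exact mul_le_mul (mem_ibox.1 hw p) (hB p P) (abs_nonneg _) (by positivity)
  refine (sum_le_sum h1).trans ?_
  rw [sum_const, card_univ, nsmul_eq_mul]
  push_cast
  rw [mul_assoc]

/-- the number of polynomials with given zeros -/
lemma many {B : ℤ × ℤ → ℕ} (hB : ∀ p P, |M.mon p P| ≤ (B P : ℤ)) (hB1 : ∀ P, 1 ≤ B P)
    (S : Finset (ℤ × ℤ)) {H : ℕ} (hH : 1 ≤ H) (hι : 1 ≤ Fintype.card ι)
    [DecidablePred fun w : ι → ℤ => ∀ P ∈ S, M.Ev w P = 0] :
    (2 * H + 1) ^ Fintype.card ι ≤ ((ibox ι (2 * H)).filter fun w =>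
      ∀ P ∈ S, M.Ev w P = 0).card * ∏ P ∈ S, (3 * (Fintype.card ι * H * B P)) := by
  classical
  obtain ⟨Z, hZ⟩ : ∃ Z : Finset (ι → ℤ), Z = (ibox ι (2 * H)).filter fun w =>
      ∀ P ∈ S, M.Ev w P = 0 := ⟨_, rfl⟩
  rw [← hZ]
  have h1 := card_le_mul_card_image (f := fun w : ι → ℤ => M.evG S w) (ibox ι H) Z.card ?_
  · rw [card_ibox] at h1
    refine h1.trans (Nat.mul_le_mul_left _ ?_)
    have h2 : (ibox ι H).image (fun w : ι → ℤ => M.evG S w) ⊆
        Fintype.piFinset fun P : ↥S => Icc (-((Fintype.card ι * H * B P.1 : ℕ) : ℤ))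
          ((Fintype.card ι * H * B P.1 : ℕ) : ℤ) := by
      intro v hv
      rw [mem_image] at hv
      obtain ⟨a, ha, rfl⟩ := hv
      rw [Fintype.mem_piFinset]
      intro P
      rw [mem_Icc, ← abs_le, evG_apply]
      exact M.Ev_le hB ha P.1
    refine (card_le_card h2).trans ?_
    rw [Fintype.card_piFinset, ← prod_coe_sort S]
    apply prod_le_prod'
    intro P _
    rw [Int.card_Icc]
    have h3 : 1 ≤ Fintype.card ι * H * B P.1 := by
      have h4 := hB1 P.1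
      exact Nat.one_le_iff_ne_zero.2 (by positivity)
    omega
  · intro v hv
    rw [mem_image] at hv
    obtain ⟨a₀, ha₀, rfl⟩ := hv
    apply card_le_card_of_injOn (fun a => a - a₀)
    · intro a ha
      rw [mem_coe, mem_filter] at ha
      rw [mem_coe, hZ, mem_filter]
      constructor
      · rw [mem_ibox]
        intro p
        have g1 := mem_ibox.1 ha.1 p
        have g2 := mem_ibox.1 ha₀ p
        show |a p - a₀ p| ≤ _
        refine (abs_sub _ _).trans ?_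
        push_cast
        linarith
      · intro P hP
        have g1 := congrFun ha.2 ⟨P, hP⟩
        simp only [evG_apply] at g1
        show M.Ev (a - a₀) P = 0
        rw [Ev_sub, g1, sub_self]
    · intro a _ a' _ h
      exact sub_left_injective h

/-- the lower bound -/
theorem V_ge {B : ℤ × ℤ → ℕ} (hB : ∀ p P, |M.mon p P| ≤ (B P : ℤ)) (hB1 : ∀ P, 1 ≤ B P)
    (S : Finset (ℤ × ℤ)) (hS : S.card ≤ e + 1) :
    1 / (3 * (Fintype.card ι : ℝ)) ^ (e + 1) / ((∏ P ∈ S, B P : ℕ) : ℝ) ≤ M.V S := by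
  classical
  have hN := M.le_card
  have h1 := M.lim S hS
  have h2 : Tendsto (fun H : ℕ => 2 * H) atTop atTop := by
    apply tendsto_atTop_mono (fun H => ?_) tendsto_id
    simp only [id]
    omega
  refine ge_of_tendsto (h1.comp h2) ?_
  filter_upwards [eventually_ge_atTop 1] with H hH1
  simp only [Function.comp_apply]
  have hH0 : (0 : ℝ) < H := by exact_mod_cast hH1
  have hM0 : (0 : ℝ) < Fintype.card ι := by exact_mod_cast (by omega : 0 < Fintype.card ι)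
  have h3 := M.many hB hB1 S hH1 (by omega)
  obtain ⟨Z, hZ⟩ : ∃ Z : Finset (ι → ℤ), Z = (ibox ι (2 * H)).filter fun w =>
      ∀ P ∈ S, M.Ev w P = 0 := ⟨_, rfl⟩
  have hc : Set.ncard {w : ι → ℤ | w ∈ ibox ι (2 * H) ∧ ∀ P ∈ S, M.Ev w P = 0} = Z.card := by
    rw [hZ, ← Set.ncard_coe_finset]
    congr 1
    ext a
    rw [mem_coe, mem_filter]
    rfl
  rw [hc]
  rw [← hZ] at h3
  obtain ⟨pr, hpr⟩ : ∃ pr : ℕ, pr = ∏ P ∈ S, B P := ⟨_, rfl⟩
  have hpr1 : 1 ≤ pr := by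
    rw [hpr]
    exact Nat.one_le_iff_ne_zero.2 (prod_ne_zero_iff.2 fun P _ => by have := hB1 P; omega)
  have hpr0 : (0 : ℝ) < pr := by exact_mod_cast hpr1
  rw [← hpr]
  have h4 : ((∏ P ∈ S, (3 * (Fintype.card ι * H * B P)) : ℕ) : ℝ) =
      (3 * (Fintype.card ι : ℝ) * H) ^ S.card * pr := by
    rw [hpr]
    push_cast
    rw [← prod_const, ← prod_mul_distrib]
    refine prod_congr rfl fun P _ => ?_
    ring
  have h5 : (2 * (H : ℝ)) ^ Fintype.card ι ≤
      Z.card * ((3 * (Fintype.card ι : ℝ) * H) ^ S.card * pr) := by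
    rw [← h4]
    calc (2 * (H : ℝ)) ^ Fintype.card ι ≤ (2 * (H : ℝ) + 1) ^ Fintype.card ι := by
          gcongr
          linarith
      _ ≤ _ := by exact_mod_cast h3
  rw [div_div, div_le_div_iff₀ (by positivity) (by positivity), one_mul]
  have h6 : (2 * (H : ℝ)) ^ Fintype.card ι = (2 * (H : ℝ)) ^ (Fintype.card ι - S.card) *
      (2 * (H : ℝ)) ^ S.card := by
    rw [← pow_add]
    congr 1
    omega
  have h7 : (3 * (Fintype.card ι : ℝ) * H) ^ S.card =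
      (3 * (Fintype.card ι : ℝ)) ^ S.card * (H : ℝ) ^ S.card := by
    rw [mul_pow]
  rw [h6, h7] at h5
  have h8 : (2 * (H : ℝ)) ^ (Fintype.card ι - S.card) * (H : ℝ) ^ S.card ≤
      Z.card * ((3 * (Fintype.card ι : ℝ)) ^ S.card * pr) * (H : ℝ) ^ S.card := by
    calc (2 * (H : ℝ)) ^ (Fintype.card ι - S.card) * (H : ℝ) ^ S.card
        ≤ (2 * (H : ℝ)) ^ (Fintype.card ι - S.card) * (2 * (H : ℝ)) ^ S.card := by
          gcongr
          linarith
      _ ≤ _ := h5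
      _ = _ := by ring
  have h9 := le_of_mul_le_mul_right h8 (by positivity)
  push_cast
  refine h9.trans ?_
  have h10 : (3 * (Fintype.card ι : ℝ)) ^ S.card ≤ (3 * (Fintype.card ι : ℝ)) ^ (e + 1) := by
    apply pow_le_pow_right₀ _ hS
    have : (1 : ℝ) ≤ Fintype.card ι := by exact_mod_cast (by omega : 1 ≤ Fintype.card ι)
    linarith
  gcongr

/-- **The tail, upper bound.** -/
theorem tail_up {k : ℕ} (he : k + 2 ≤ e) : ∃ C : ℝ, 0 ≤ C ∧ ∀ T : ℕ, 1 ≤ T →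
    ∀ F : Finset (Finset (ℤ × ℤ)), (∀ S ∈ F, S.card = k ∧ ∃ P ∈ S, T < sz P) →
      ∑ S ∈ F, M.V S ≤ C / (T : ℝ) ^ (e - k - 1) := by
  classical
  have hC := CG_pos (e := e) (ι := ι)
  have hw : 0 ≤ ∑' S, wS S := tsum_nonneg wS_nonneg
  refine ⟨CG e ι * (8 * ∑' S, wS S), by positivity, fun T hT F hF => ?_⟩
  have h1 : ∀ S ∈ F, M.V S ≤ CG e ι * (1 / pt S ^ (e + 1 - k)) := by
    intro S hS
    have h2 := M.V_le S (by rw [(hF S hS).1]; omega)
    rw [(hF S hS).1] at h2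
    rw [mul_one_div]
    exact h2
  refine (sum_le_sum h1).trans ?_
  rw [← mul_sum]
  have h2 := sum_sets hT (s := e + 1 - k) (by omega) F fun S hS => (hF S hS).2
  have h3 : e + 1 - k - 2 = e - k - 1 := by omega
  rw [h3] at h2
  calc CG e ι * ∑ S ∈ F, 1 / pt S ^ (e + 1 - k)
      ≤ CG e ι * (8 * (∑' S, wS S) / (T : ℝ) ^ (e - k - 1)) := by gcongr
    _ = _ := by ring

end Fm

end Pool.Agent.Run7.h953.KB
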