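import Pool.Agent.Run7.h953.KP.Ev
import Pool.Agent.Run7.h953.KP.Small

set_option autoImplicit false
set_option linter.unusedSectionVars false

/-! Curves with monomials in an arbitrary finite set which contains all monomials of small degree:
curves through given points. -/

open Filter Topology Finset

namespace Pool.Agent.Run7.h953.KB

open Pool.Agent.R414.DN Pool.Agent.N656.LL Pool.Agent.Run7.h953.KP

/-- a finite set of monomials which contains the monomials of degree at most `e` -/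
structure Fm (e : ℕ) (ι : Type) [Fintype ι] [DecidableEq ι] where
  mon : ι → ℤ × ℤ → ℤ
  em : ↥(I e) → ι
  inj : Function.Injective em
  hmon : ∀ q P, mon (em q) P = P.1 ^ q.1.2 * P.2 ^ (q.1.1 - q.1.2)

variable {e : ℕ} {ι : Type} [Fintype ι] [DecidableEq ι] (M : Fm e ι)

namespace Fm

/-- the value -/
def Ev (w : ι → ℤ) (P : ℤ × ℤ) : ℤ := ∑ p, w p * M.mon p P

lemma Ev_add (w w' : ι → ℤ) (P : ℤ × ℤ) : M.Ev (w + w') P = M.Ev w P + M.Ev w' P := by
  unfold Ev
  rw [← sum_add_distrib]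
  refine sum_congr rfl fun p _ => ?_
  rw [Pi.add_apply]
  ring

lemma Ev_sub (w w' : ι → ℤ) (P : ℤ × ℤ) : M.Ev (w - w') P = M.Ev w P - M.Ev w' P := by
  unfold Ev
  rw [← sum_sub_distrib]
  refine sum_congr rfl fun p _ => ?_
  rw [Pi.sub_apply]
  ring

/-- the low part -/
def lo (w : ι → ℤ) : Cf e := fun q => w (M.em q)

/-- the image of the low monomials -/
def rg : Finset ι := univ.image M.em

lemma card_rg : M.rg.card = MM e := by
  unfold rg MM
  rw [card_image_of_injective _ M.inj, card_univ]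

lemma mem_rg {p : ι} : p ∈ M.rg ↔ ∃ q, M.em q = p := by
  unfold rg
  rw [mem_image]
  constructor
  · rintro ⟨q, -, h⟩
    exact ⟨q, h⟩
  · rintro ⟨q, h⟩
    exact ⟨q, mem_univ _, h⟩

include M in
lemma card_ge : MM e ≤ Fintype.card ι := by
  rw [← M.card_rg]
  exact card_le_univ _

lemma Ev_split (w : ι → ℤ) (P : ℤ × ℤ) :
    M.Ev w P = Fv (co (M.lo w)) e P.1 P.2 + ∑ p ∈ M.rgᶜ, w p * M.mon p P := by
  unfold Ev
  rw [← sum_add_sum_compl M.rg]
  congr 1
  rw [Fv_sumI]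
  unfold rg
  rw [sum_image fun a _ b _ h => M.inj h]
  refine sum_congr rfl fun q _ => ?_
  rw [M.hmon]
  rfl

/-- extension by zero -/
noncomputable def ext (a : Cf e) : ι → ℤ := Function.extend M.em a 0

lemma Ev_ext (a : Cf e) (P : ℤ × ℤ) : M.Ev (M.ext a) P = Fv (co a) e P.1 P.2 := by
  rw [Fv_sumI]
  unfold Ev ext
  symm
  apply Fintype.sum_of_injective M.em M.inj
  · intro p hp
    rw [Function.extend_apply' _ _ _ (fun ⟨q, hq⟩ => hp ⟨q, hq⟩), Pi.zero_apply, zero_mul]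
  · intro q
    rw [M.inj.extend_apply, M.hmon]

/-- **Curves through given points.** -/
theorem count {H : ℕ} (hH : 1 ≤ H) (S : Finset (ℤ × ℤ)) (hS : S.card ≤ e + 1)
    (s : ℤ × ℤ → ℤ) (J : Finset ι) (hJ : Disjoint M.rg J) (T : Finset (ι → ℤ)) (hT : T ⊆ ibox ι H)
    (hJ0 : ∀ w ∈ T, ∀ p ∈ J, w p = 0)
    (hz : ∀ w ∈ T, ∀ P ∈ S, M.Ev w P = s P) :
    (T.card : ℝ) ≤ CP e * 3 ^ Fintype.card ι * (H : ℝ) ^ (Fintype.card ι - (e + 1) - J.card) *
      ((H : ℝ) / pt S + 1) ^ (e + 1 - S.card) := by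
  classical
  obtain ⟨X, hX⟩ : ∃ X : ℝ, X = CP e * (H : ℝ) ^ (MM e - (e + 1)) *
    ((H : ℝ) / pt S + 1) ^ (e + 1 - S.card) := ⟨_, rfl⟩
  have hCP := CP_pos e
  have hpt := pt_one S
  have hH0 : (0 : ℝ) < H := by exact_mod_cast hH
  have hH' : (1 : ℝ) ≤ H := by exact_mod_cast hH
  have hX0 : 0 ≤ X := by rw [hX]; positivity
  have h1 := card_fiber hT (M.rg ∪ J) ⌊X⌋₊ (by
    intro b T' hT' hb
    apply Nat.le_floor
    have hinj : Set.InjOn M.lo (T' : Set (ι → ℤ)) := by
      intro w hw w' hw' h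
      funext p
      by_cases hp : p ∈ M.rg ∪ J
      · rcases mem_union.1 hp with hp | hp
        · obtain ⟨q, rfl⟩ := M.mem_rg.1 hp
          exact congrFun h q
        · rw [hJ0 w (hT' (mem_coe.1 hw)) p hp, hJ0 w' (hT' (mem_coe.1 hw')) p hp]
      · rw [hb w (mem_coe.1 hw) p hp, hb w' (mem_coe.1 hw') p hp]
    rw [← card_image_of_injOn hinj, hX]
    apply count_points hH S hS (fun P => s P - ∑ p ∈ M.rgᶜ, (if p ∈ J then 0 else b p) * M.mon p P)
    · intro a ha
      rw [mem_image] at ha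
      obtain ⟨w, hw, rfl⟩ := ha
      rw [mem_ibox]
      intro q
      exact mem_ibox.1 (hT (hT' hw)) _
    · intro a ha P hP
      rw [mem_image] at ha
      obtain ⟨w, hw, rfl⟩ := ha
      have h2 := hz w (hT' hw) P hP
      rw [M.Ev_split] at h2
      have h3 : ∑ p ∈ M.rgᶜ, w p * M.mon p P =
          ∑ p ∈ M.rgᶜ, (if p ∈ J then 0 else b p) * M.mon p P := by
        refine sum_congr rfl fun p hp => ?_
        split_ifs with h4
        · rw [hJ0 w (hT' hw) p h4]
        · rw [hb w hw p]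
          rw [mem_compl] at hp
          rw [mem_union]
          tauto
      rw [h3] at h2
      linarith)
  have h2 : (T.card : ℝ) ≤ X * (2 * (H : ℝ) + 1) ^ (Fintype.card ι - (M.rg ∪ J).card) := by
    have h3 := (Nat.cast_le (α := ℝ)).2 h1
    push_cast at h3
    refine h3.trans ?_
    have := Nat.floor_le hX0
    gcongr
  rw [card_union_of_disjoint hJ, M.card_rg] at h2
  have hM : e + 1 ≤ MM e := by
    rw [MM_eq]
    have h2 : (e + 1) * 2 ≤ (e + 1) * (e + 2) := Nat.mul_le_mul_left _ (by omega)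
    omega
  have hcJ : MM e + J.card ≤ Fintype.card ι := by
    rw [← M.card_rg, ← card_union_of_disjoint hJ]
    exact card_le_univ _
  refine h2.trans ?_
  have h3 : (2 * (H : ℝ) + 1) ^ (Fintype.card ι - (MM e + J.card)) ≤
      3 ^ Fintype.card ι * (H : ℝ) ^ (Fintype.card ι - (MM e + J.card)) := by
    calc (2 * (H : ℝ) + 1) ^ (Fintype.card ι - (MM e + J.card))
        ≤ (3 * H) ^ (Fintype.card ι - (MM e + J.card)) := by
          gcongr
          linarith
      _ = 3 ^ (Fintype.card ι - (MM e + J.card)) *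
          (H : ℝ) ^ (Fintype.card ι - (MM e + J.card)) := by rw [mul_pow]
      _ ≤ _ := by
          have : (3 : ℝ) ^ (Fintype.card ι - (MM e + J.card)) ≤ 3 ^ Fintype.card ι :=
            pow_le_pow_right₀ (by norm_num) (Nat.sub_le _ _)
          gcongr
  have h4 : (H : ℝ) ^ (Fintype.card ι - (e + 1) - J.card) =
      (H : ℝ) ^ (MM e - (e + 1)) * (H : ℝ) ^ (Fintype.card ι - (MM e + J.card)) := by
    rw [← pow_add]
    congr 1
    omega
  rw [h4]
  calc X * (2 * (H : ℝ) + 1) ^ (Fintype.card ι - (MM e + J.card))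
      ≤ X * (3 ^ Fintype.card ι * (H : ℝ) ^ (Fintype.card ι - (MM e + J.card))) := by gcongr
    _ = _ := by
      rw [hX]
      ring

/-- the constant -/
noncomputable def CG (e : ℕ) (ι : Type) [Fintype ι] : ℝ :=
  CP e * 3 ^ Fintype.card ι * 2 ^ (e + 1)

lemma CG_pos : 0 < CG e ι := by
  have := CP_pos e
  unfold CG
  positivity

include M in
lemma le_card : e + 1 ≤ Fintype.card ι := by
  refine le_trans ?_ M.card_ge
  rw [MM_eq]
  have h2 : (e + 1) * 2 ≤ (e + 1) * (e + 2) := Nat.mul_le_mul_left _ (by omega)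
  omega

/-- few points -/
theorem count_small {H : ℕ} (hH : 1 ≤ H) (S : Finset (ℤ × ℤ)) (hS : S.card ≤ e + 1)
    (hp : pt S ≤ H) (T : Finset (ι → ℤ)) (hT : T ⊆ ibox ι H)
    (hz : ∀ w ∈ T, ∀ P ∈ S, M.Ev w P = 0) :
    (T.card : ℝ) ≤ CG e ι * (H : ℝ) ^ (Fintype.card ι - S.card) / pt S ^ (e + 1 - S.card) := by
  have hH0 : (0 : ℝ) < H := by exact_mod_cast hH
  have h1 := M.count hH S hS (fun _ => 0) ∅ (disjoint_empty_right _) T hT
    (fun w _ p hp => absurd hp (notMem_empty p)) hz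
  have hpt := pt_one S
  have hC := CP_pos e
  have hN := M.le_card
  refine h1.trans ?_
  rw [card_empty, Nat.sub_zero]
  have h2 : (H : ℝ) / pt S + 1 ≤ 2 * ((H : ℝ) / pt S) := by
    have : 1 ≤ (H : ℝ) / pt S := by rw [le_div_iff₀ (by linarith)]; linarith
    linarith
  have e1 : (H : ℝ) ^ (Fintype.card ι - S.card) = (H : ℝ) ^ (Fintype.card ι - (e + 1)) *
      (H : ℝ) ^ (e + 1 - S.card) := by
    rw [← pow_add]
    congr 1
    omega
  rw [e1]
  calc CP e * 3 ^ Fintype.card ι * (H : ℝ) ^ (Fintype.card ι - (e + 1)) *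
        ((H : ℝ) / pt S + 1) ^ (e + 1 - S.card)
      ≤ CP e * 3 ^ Fintype.card ι * (H : ℝ) ^ (Fintype.card ι - (e + 1)) *
        (2 * ((H : ℝ) / pt S)) ^ (e + 1 - S.card) := by gcongr
    _ = CP e * 3 ^ Fintype.card ι * 2 ^ (e + 1 - S.card) *
        ((H : ℝ) ^ (Fintype.card ι - (e + 1)) * (H : ℝ) ^ (e + 1 - S.card)) /
        pt S ^ (e + 1 - S.card) := by
        rw [mul_pow, div_pow]
        ring
    _ ≤ _ := by
        have h10 : (2 : ℝ) ^ (e + 1 - S.card) ≤ 2 ^ (e + 1) :=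
          pow_le_pow_right₀ (by norm_num) (Nat.sub_le _ _)
        unfold CG
        gcongr

/-- many or large points -/
theorem count_large {H : ℕ} (hH : 1 ≤ H) (S : Finset (ℤ × ℤ)) (hS : S.card ≤ e + 1)
    (hp : (H : ℝ) ≤ pt S) (T : Finset (ι → ℤ)) (hT : T ⊆ ibox ι H)
    (hz : ∀ w ∈ T, ∀ P ∈ S, M.Ev w P = 0) :
    (T.card : ℝ) ≤ CG e ι * (H : ℝ) ^ (Fintype.card ι - (e + 1)) := by
  have hH0 : (0 : ℝ) < H := by exact_mod_cast hH
  have h1 := M.count hH S hS (fun _ => 0) ∅ (disjoint_empty_right _) T hT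
    (fun w _ p hp => absurd hp (notMem_empty p)) hz
  have hpt := pt_one S
  have hC := CP_pos e
  refine h1.trans ?_
  rw [card_empty, Nat.sub_zero]
  have h2 : (H : ℝ) / pt S + 1 ≤ 2 := by
    have : (H : ℝ) / pt S ≤ 1 := by rw [div_le_one (by linarith)]; exact hp
    linarith
  have h3 : ((H : ℝ) / pt S + 1) ^ (e + 1 - S.card) ≤ 2 ^ (e + 1) := by
    calc ((H : ℝ) / pt S + 1) ^ (e + 1 - S.card) ≤ 2 ^ (e + 1 - S.card) := by
          gcongr
      _ ≤ _ := pow_le_pow_right₀ (by norm_num) (Nat.sub_le _ _)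
  unfold CG
  calc CP e * 3 ^ Fintype.card ι * (H : ℝ) ^ (Fintype.card ι - (e + 1)) *
        ((H : ℝ) / pt S + 1) ^ (e + 1 - S.card)
      ≤ CP e * 3 ^ Fintype.card ι * (H : ℝ) ^ (Fintype.card ι - (e + 1)) * 2 ^ (e + 1) := by gcongr
    _ = _ := by ring

/-- arbitrary points -/
theorem count_any {H : ℕ} (hH : 1 ≤ H) (S : Finset (ℤ × ℤ)) (hS : S.card ≤ e + 1)
    (J : Finset ι) (hJ : Disjoint M.rg J) (T : Finset (ι → ℤ)) (hT : T ⊆ ibox ι H)
    (hJ0 : ∀ w ∈ T, ∀ p ∈ J, w p = 0)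
    (hz : ∀ w ∈ T, ∀ P ∈ S, M.Ev w P = 0) :
    (T.card : ℝ) ≤ CG e ι * (H : ℝ) ^ (Fintype.card ι - S.card - J.card) := by
  have hH0 : (0 : ℝ) < H := by exact_mod_cast hH
  have hH' : (1 : ℝ) ≤ H := by exact_mod_cast hH
  have h1 := M.count hH S hS (fun _ => 0) J hJ T hT hJ0 hz
  have hpt := pt_one S
  have hC := CP_pos e
  have hM : e + 1 ≤ MM e := by
    rw [MM_eq]
    have h2 : (e + 1) * 2 ≤ (e + 1) * (e + 2) := Nat.mul_le_mul_left _ (by omega)
    omega
  have hcJ : MM e + J.card ≤ Fintype.card ι := by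
    rw [← M.card_rg, ← card_union_of_disjoint hJ]
    exact card_le_univ _
  refine h1.trans ?_
  have h2 : (H : ℝ) / pt S + 1 ≤ 2 * H := by
    have : (H : ℝ) / pt S ≤ H := div_le_self hH0.le hpt
    linarith
  have e1 : (H : ℝ) ^ (Fintype.card ι - S.card - J.card) =
      (H : ℝ) ^ (Fintype.card ι - (e + 1) - J.card) * (H : ℝ) ^ (e + 1 - S.card) := by
    rw [← pow_add]
    congr 1
    omega
  have h3 : ((H : ℝ) / pt S + 1) ^ (e + 1 - S.card) ≤ 2 ^ (e + 1) * (H : ℝ) ^ (e + 1 - S.card) := by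
    calc ((H : ℝ) / pt S + 1) ^ (e + 1 - S.card) ≤ (2 * H) ^ (e + 1 - S.card) := by
          gcongr
      _ = 2 ^ (e + 1 - S.card) * (H : ℝ) ^ (e + 1 - S.card) := by rw [mul_pow]
      _ ≤ _ := by
        have : (2 : ℝ) ^ (e + 1 - S.card) ≤ 2 ^ (e + 1) :=
          pow_le_pow_right₀ (by norm_num) (Nat.sub_le _ _)
        gcongr
  rw [e1]
  unfold CG
  calc _ ≤ CP e * 3 ^ Fintype.card ι * (H : ℝ) ^ (Fintype.card ι - (e + 1) - J.card) *
        (2 ^ (e + 1) * (H : ℝ) ^ (e + 1 - S.card)) := by gcongr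
    _ = _ := by ring

/-! ### the density -/

/-- the evaluation at several points -/
def evG (S : Finset (ℤ × ℤ)) : (ι → ℤ) →ₗ[ℤ] (↥S → ℤ) where
  toFun w := fun P => M.Ev w P.1
  map_add' w w' := by
    funext P
    exact M.Ev_add w w' _
  map_smul' c w := by
    funext P
    simp only [Pi.smul_apply, smul_eq_mul, RingHom.id_apply]
    unfold Ev
    rw [mul_sum]
    refine sum_congr rfl fun p _ => ?_
    rw [Pi.smul_apply, smul_eq_mul]
    ring

lemma evG_apply (S : Finset (ℤ × ℤ)) (w : ι → ℤ) (P : ↥S) : M.evG S w P = M.Ev w P.1 := rfl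

lemma finrank_range (S : Finset (ℤ × ℤ)) (hS : S.card ≤ e + 1) :
    Module.finrank ℤ (LinearMap.range (M.evG S)) = S.card := by
  classical
  apply le_antisymm
  · have h1 := Submodule.finrank_le (LinearMap.range (M.evG S))
    rw [Module.finrank_fintype_fun_eq_card, Fintype.card_coe] at h1
    exact h1
  · choose a ha using fun P : ↥S => exists_one S hS P
    have hv : ∀ P Q : ↥S, M.evG S (M.ext (a P)) Q = evS e S (a P) Q := by
      intro P Q
      rw [evG_apply, evS_apply, M.Ev_ext]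
    have h1 : LinearIndependent ℤ (fun P : ↥S =>
        (⟨M.evG S (M.ext (a P)), LinearMap.mem_range_self _ _⟩ : LinearMap.range (M.evG S))) := by
      rw [Fintype.linearIndependent_iff]
      intro g hg P
      have h2 := congrArg (fun x : LinearMap.range (M.evG S) => (x : ↥S → ℤ) P) hg
      simp only [Submodule.coe_sum, Submodule.coe_smul, Finset.sum_apply, Pi.smul_apply,
        smul_eq_mul, Submodule.coe_zero, Pi.zero_apply, hv] at h2
      rw [sum_eq_single P] at h2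
      · rcases mul_eq_zero.1 h2 with h3 | h3
        · exact h3
        · exact absurd h3 (ha P).1
      · intro Q _ hQ
        rw [(ha Q).2 P (Ne.symm hQ), mul_zero]
      · intro h
        exact absurd (mem_univ P) h
    have h2 := h1.fintype_card_le_finrank
    rw [Fintype.card_coe] at h2
    exact h2

lemma finrank_ker (S : Finset (ℤ × ℤ)) (hS : S.card ≤ e + 1) :
    Module.finrank ℤ (LinearMap.ker (M.evG S)) = Fintype.card ι - S.card := by
  have h1 := Submodule.finrank_quotient_add_finrank (R := ℤ) (LinearMap.ker (M.evG S))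
  rw [LinearEquiv.finrank_eq (LinearMap.quotKerEquivRange (M.evG S)), M.finrank_range S hS,
    Module.finrank_fintype_fun_eq_card] at h1
  omega

/-- the density of the polynomials with given zeros -/
noncomputable def V (S : Finset (ℤ × ℤ)) : ℝ := dens (M.evG S)

lemma V_pos (S : Finset (ℤ × ℤ)) : 0 < M.V S := dens_pos _

/-- **The density of the curves through given points.** -/
theorem lim (S : Finset (ℤ × ℤ)) (hS : S.card ≤ e + 1) :
    Tendsto (fun H : ℕ => (Set.ncard {w : ι → ℤ | w ∈ ibox ι H ∧ ∀ P ∈ S, M.Ev w P = 0} : ℝ) /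
      (H : ℝ) ^ (Fintype.card ι - S.card)) atTop (𝓝 (M.V S)) := by
  classical
  refine (tendsto_system (M.evG S) 0 (M.finrank_ker S hS)).congr fun H => ?_
  congr 3
  ext w
  constructor
  · rintro ⟨h1, h2⟩
    refine ⟨mem_ibox.2 h1, fun P hP => ?_⟩
    have h3 := congrFun h2 ⟨P, hP⟩
    rw [map_zero] at h3
    exact h3
  · rintro ⟨h1, h2⟩
    refine ⟨fun i => mem_ibox.1 h1 i, ?_⟩
    rw [map_zero]
    funext P
    exact h2 P.1 P.2

/-- the density of the curves through given points, with a nonzero coefficient -/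
theorem lim_ne (S : Finset (ℤ × ℤ)) (hS : S.card ≤ e) (t : ι) (ht : t ∉ M.rg) :
    Tendsto (fun H : ℕ => (Set.ncard {w : ι → ℤ | w ∈ (ibox ι H).filter (fun w => w t ≠ 0) ∧
      ∀ P ∈ S, M.Ev w P = 0} : ℝ) / (H : ℝ) ^ (Fintype.card ι - S.card)) atTop (𝓝 (M.V S)) := by
  classical
  obtain ⟨n, hn⟩ : ∃ n, n = Fintype.card ι - S.card := ⟨_, rfl⟩
  have hN := M.le_card
  have h1 := M.lim S (by omega)
  rw [← hn] at h1 ⊢
  have h2 : Tendsto (fun H : ℕ => CG e ι / (H : ℝ)) atTop (𝓝 0) :=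
    tendsto_const_nhds.div_atTop tendsto_natCast_atTop_atTop
  have h3 := h1.sub h2
  rw [sub_zero] at h3
  refine tendsto_of_tendsto_of_tendsto_of_le_of_le' h3 h1 ?_ ?_
  · filter_upwards [eventually_ge_atTop 1] with H hH
    have hH0 : (0 : ℝ) < H := by exact_mod_cast hH
    obtain ⟨Z, hZ⟩ : ∃ Z : Finset (ι → ℤ), Z = (ibox ι H).filter fun w =>
      w t = 0 ∧ ∀ P ∈ S, M.Ev w P = 0 := ⟨_, rfl⟩
    have h4 := M.count_any hH S (by omega) {t} (disjoint_singleton_right.2 ht) Z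
      (by rw [hZ]; exact filter_subset _ _) (by
        intro w hw p hp
        rw [mem_singleton] at hp
        rw [hZ, mem_filter] at hw
        rw [hp]
        exact hw.2.1) (by
        intro w hw
        rw [hZ, mem_filter] at hw
        exact hw.2.2)
    rw [card_singleton, ← hn] at h4
    have h5 : {w : ι → ℤ | w ∈ ibox ι H ∧ ∀ P ∈ S, M.Ev w P = 0} ⊆
        {w : ι → ℤ | w ∈ (ibox ι H).filter (fun w => w t ≠ 0) ∧ ∀ P ∈ S, M.Ev w P = 0} ∪
          (Z : Set (ι → ℤ)) := by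
      rintro w ⟨g1, g2⟩
      by_cases g3 : w t = 0
      · right
        rw [hZ, mem_coe, mem_filter]
        exact ⟨g1, g3, g2⟩
      · exact Or.inl ⟨mem_filter.2 ⟨g1, g3⟩, g2⟩
    have hfin : ({w : ι → ℤ | w ∈ (ibox ι H).filter (fun w => w t ≠ 0) ∧
        ∀ P ∈ S, M.Ev w P = 0} ∪ (Z : Set (ι → ℤ))).Finite :=
      (((ibox ι H).filter (fun w => w t ≠ 0)).finite_toSet.subset fun w h => h.1).union
        Z.finite_toSet
    have h6 := (Set.ncard_le_ncard h5 hfin).trans (Set.ncard_union_le _ _)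
    rw [Set.ncard_coe_finset] at h6
    have h7 := (Nat.cast_le (α := ℝ)).2 h6
    push_cast at h7
    have e1 : (H : ℝ) ^ n = (H : ℝ) ^ (n - 1) * H := by
      rw [← pow_succ]
      congr 1
      omega
    rw [div_sub_div _ _ (by positivity) hH0.ne', div_le_div_iff₀ (by positivity) (by positivity)]
    have h8 : (Set.ncard {w : ι → ℤ | w ∈ ibox ι H ∧ ∀ P ∈ S, M.Ev w P = 0} : ℝ) * H -
        (H : ℝ) ^ n * CG e ι ≤
        (Set.ncard {w : ι → ℤ | w ∈ (ibox ι H).filter (fun w => w t ≠ 0) ∧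
          ∀ P ∈ S, M.Ev w P = 0} : ℝ) * H := by
      rw [e1]
      nlinarith
    calc _ ≤ ((Set.ncard {w : ι → ℤ | w ∈ (ibox ι H).filter (fun w => w t ≠ 0) ∧
          ∀ P ∈ S, M.Ev w P = 0} : ℝ) * H) * (H : ℝ) ^ n := by gcongr
      _ = _ := by ring
  · filter_upwards [eventually_ge_atTop 1] with H hH
    have hH0 : (0 : ℝ) < H := by exact_mod_cast hH
    apply div_le_div_of_nonneg_right _ (by positivity)
    have h5 : {w : ι → ℤ | w ∈ (ibox ι H).filter (fun w => w t ≠ 0) ∧ ∀ P ∈ S, M.Ev w P = 0} ⊆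
        {w : ι → ℤ | w ∈ ibox ι H ∧ ∀ P ∈ S, M.Ev w P = 0} :=
      fun w h => ⟨(mem_filter.1 h.1).1, h.2⟩
    have hfin : {w : ι → ℤ | w ∈ ibox ι H ∧ ∀ P ∈ S, M.Ev w P = 0}.Finite :=
      (ibox ι H).finite_toSet.subset fun w h => h.1
    exact_mod_cast Set.ncard_le_ncard h5 hfin

end Fm

end Pool.Agent.Run7.h953.KB
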