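import Pool.Agent.Run7.h953.KB.Red
import Pool.Agent.Run7.h953.KB.Fin
import Pool.Agent.Run7.h953.KP.Sing

set_option autoImplicit false
set_option linter.unusedSectionVars false

/-! Absolute irreducibility of polynomials of bounded bidegree with given zeros. -/

open Filter Topology Finset

namespace Pool.Agent.Run7.h953.KB

open Pool.Agent.R414.DN Pool.Agent.N656.LL Pool.Agent.Run7.h953.KP
open Pool.Agent.N656.BD (Ix G pB ex eval_pB coeff_pB coeff_pB_of_ne card_Ix pB_smul)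

variable {a b : ℕ}

lemma pB_add_mul (w h : Ix a b → ℤ) (j : ℤ) :
    pB (i := a + 2) (j := b + 2) (fun p => w p + j * h p) =
      pB (i := a + 2) (j := b + 2) w + MvPolynomial.C j * pB (i := a + 2) (j := b + 2) h := by
  unfold pB
  rw [mul_sum, ← sum_add_distrib]
  refine sum_congr rfl fun p _ => ?_
  rw [map_add, MvPolynomial.C_mul_monomial]

lemma pB_ext (c : Cf (min a b + 2)) :
    pB (i := a + 2) (j := b + 2) ((fmB a b).ext c) = poly c := by
  apply MvPolynomial.funext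
  intro v
  have hv : v = ![v 0, v 1] := by
    funext i
    fin_cases i <;> rfl
  rw [hv, eval_poly]
  have h1 := eval_pB ((fmB a b).ext c) (v 0) (v 1)
  rw [h1]
  have h2 := Ev_eq a b ((fmB a b).ext c) (v 0, v 1)
  rw [(fmB a b).Ev_ext] at h2
  exact h2.symm

/-- the value of the derivative -/
noncomputable def Dx (P : ℤ × ℤ) (w : Ix a b → ℤ) : ℤ :=
  MvPolynomial.eval ![P.1, P.2] (MvPolynomial.pderiv 0 (pB (i := a + 2) (j := b + 2) w))

lemma Dx_add (P : ℤ × ℤ) (w h : Ix a b → ℤ) (j : ℤ) :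
    Dx P (fun p => w p + j * h p) = Dx P w + j * Dx P h := by
  unfold Dx
  rw [pB_add_mul, map_add, map_add, MvPolynomial.pderiv_C_mul, map_mul, MvPolynomial.eval_C]

/-- a vanishing derivative is rare -/
lemma sing_rareB (S : Finset (ℤ × ℤ)) (hS : S.card ≤ min a b + 2) {P : ℤ × ℤ} (hP : P ∈ S) :
    Tendsto (fun H : ℕ => (Set.ncard {w : Ix a b → ℤ | w ∈ ibox (Ix a b) H ∧
      (∀ Q ∈ S, (fmB a b).Ev w Q = 0) ∧ Dx P w = 0} : ℝ) /
        (H : ℝ) ^ (Fintype.card (Ix a b) - S.card)) atTop (𝓝 0) := by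
  obtain ⟨h, h1, h2⟩ := exists_der (e := min a b + 2) S hS hP
  refine (fmB a b).rare_of_dir S (by omega) ((fmB a b).ext h) (fun Q hQ => ?_) (Dx P)
    (fun w j => Dx_add P w _ j) ?_
  · rw [(fmB a b).Ev_ext]
    exact h1 Q hQ
  · unfold Dx
    rw [pB_ext]
    exact h2

/-- **Almost all polynomials with given zeros are absolutely irreducible.** -/
theorem irr_rareF {k : ℕ} (hk : k + 1 ≤ min (a + 2) (b + 2)) (S : Finset (ℤ × ℤ)) (hS : S.card = k)
    (hne : S.Nonempty) :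
    Tendsto (fun H : ℕ => (Set.ncard {w : Ix a b → ℤ | w ∈ (fmB a b).fam (tp a b) H ∧
      (∀ Q ∈ S, (fmB a b).Ev w Q = 0) ∧
      ¬ Irreducible (MvPolynomial.map (Int.castRingHom (AlgebraicClosure ℚ))
        (pB (i := a + 2) (j := b + 2) w))} : ℝ) /
        (H : ℝ) ^ (Fintype.card (Ix a b) - k)) atTop (𝓝 0) := by
  classical
  obtain ⟨P, hP⟩ := hne
  have hmm : min (a + 2) (b + 2) = min a b + 2 := by omega
  have h1 := sing_rareB (a := a) (b := b) S (by omega) hP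
  rw [hS] at h1
  obtain ⟨C, hC, hred⟩ := red_few2 a b
  obtain ⟨n, hn⟩ : ∃ n, n = Fintype.card (Ix a b) := ⟨_, rfl⟩
  rw [← hn] at h1 hred ⊢
  have hle := (fmB a b).le_card
  rw [← hn] at hle
  have h2 : Tendsto (fun H : ℕ => C * 3 ^ n / (H : ℝ)) atTop (𝓝 0) :=
    tendsto_const_nhds.div_atTop tendsto_natCast_atTop_atTop
  have h3 := h2.add h1
  rw [add_zero] at h3
  refine squeeze_zero' (Eventually.of_forall fun H => by positivity) ?_ h3
  filter_upwards [eventually_ge_atTop 1] with H hH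
  have hH0 : (0 : ℝ) < H := by exact_mod_cast hH
  have hH' : (1 : ℝ) ≤ H := by exact_mod_cast hH
  obtain ⟨R, hR⟩ : ∃ R : Finset (Ix a b → ℤ), R = (ibox (Ix a b) H).filter fun w =>
    0 < (pB (i := a + 2) (j := b + 2) w).totalDegree ∧
    ¬ Irreducible (MvPolynomial.map (Int.castRingHom ℚ) (pB (i := a + 2) (j := b + 2) w)) :=
    ⟨_, rfl⟩
  have h4 := hred H hH R (by
    intro w hw
    rw [hR, mem_filter] at hw
    exact Pool.Agent.N656.BD.mem_box.2 (mem_ibox.1 hw.1)) (by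
    intro w hw
    rw [hR, mem_filter] at hw
    exact hw.2)
  have h5 : (R.card : ℝ) ≤ C * 3 ^ n * (H : ℝ) ^ (n - (k + 1)) := by
    refine h4.trans ?_
    calc C * (2 * (H : ℝ) + 1) ^ (n - min (a + 2) (b + 2))
        ≤ C * (3 * H) ^ (n - min (a + 2) (b + 2)) := by
          gcongr
          linarith
      _ = C * (3 ^ (n - min (a + 2) (b + 2)) * (H : ℝ) ^ (n - min (a + 2) (b + 2))) := by
          rw [mul_pow]
      _ ≤ C * (3 ^ n * (H : ℝ) ^ (n - (k + 1))) := by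
          have g1 : (3 : ℝ) ^ (n - min (a + 2) (b + 2)) ≤ 3 ^ n :=
            pow_le_pow_right₀ (by norm_num) (Nat.sub_le _ _)
          have g2 : (H : ℝ) ^ (n - min (a + 2) (b + 2)) ≤ (H : ℝ) ^ (n - (k + 1)) :=
            pow_le_pow_right₀ hH' (by omega)
          gcongr
      _ = _ := by ring
  have hsub : {w : Ix a b → ℤ | w ∈ (fmB a b).fam (tp a b) H ∧
      (∀ Q ∈ S, (fmB a b).Ev w Q = 0) ∧
      ¬ Irreducible (MvPolynomial.map (Int.castRingHom (AlgebraicClosure ℚ))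
        (pB (i := a + 2) (j := b + 2) w))} ⊆ (R : Set (Ix a b → ℤ)) ∪
      {w : Ix a b → ℤ | w ∈ ibox (Ix a b) H ∧
      (∀ Q ∈ S, (fmB a b).Ev w Q = 0) ∧ Dx P w = 0} := by
    rintro w ⟨g1, g2, g3⟩
    have g4 := (fmB a b).mem_fam.1 g1
    by_cases g5 : Irreducible (MvPolynomial.map (Int.castRingHom ℚ)
      (pB (i := a + 2) (j := b + 2) w))
    · right
      refine ⟨g4.1, g2, ?_⟩
      by_contra g6
      apply g3
      refine Pool.Agent.N656.PC.abs_irr_at g5 (P := ![P.1, P.2]) ?_ g6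
      rw [eval_pB, ← Ev_eq a b w P]
      exact g2 P hP
    · left
      rw [hR, mem_coe, mem_filter]
      refine ⟨g4.1, ?_, g5⟩
      have g6 : (pB (i := a + 2) (j := b + 2) w).coeff (ex (tp a b)) ≠ 0 := by
        rw [coeff_pB]
        exact g4.2.1
      have g7 := MvPolynomial.le_totalDegree (MvPolynomial.mem_support_iff.2 g6)
      rw [Finsupp.sum_fintype _ _ (by intro i; rfl), Fin.sum_univ_two,
        Pool.Agent.N656.BD.ex_zero, Pool.Agent.N656.BD.ex_one] at g7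
      have g8 : ((tp a b).2 : ℕ) = a + 2 := rfl
      omega
  have hfin : ((R : Set (Ix a b → ℤ)) ∪
      {w : Ix a b → ℤ | w ∈ ibox (Ix a b) H ∧
      (∀ Q ∈ S, (fmB a b).Ev w Q = 0) ∧ Dx P w = 0}).Finite :=
    R.finite_toSet.union ((ibox (Ix a b) H).finite_toSet.subset fun w h => h.1)
  have h6 := (Set.ncard_le_ncard hsub hfin).trans (Set.ncard_union_le _ _)
  rw [Set.ncard_coe_finset] at h6
  have h7 := (Nat.cast_le (α := ℝ)).2 h6
  push_cast at h7
  have e1 : (H : ℝ) ^ (n - k) = (H : ℝ) ^ (n - (k + 1)) * H := by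
    rw [← pow_succ]
    congr 1
    omega
  calc _ ≤ ((R.card : ℝ) + (Set.ncard {w : Ix a b → ℤ | w ∈ ibox (Ix a b) H ∧
      (∀ Q ∈ S, (fmB a b).Ev w Q = 0) ∧ Dx P w = 0} : ℝ)) / (H : ℝ) ^ (n - k) := by gcongr
    _ = (R.card : ℝ) / (H : ℝ) ^ (n - k) + (Set.ncard {w : Ix a b → ℤ | w ∈ ibox (Ix a b) H ∧
      (∀ Q ∈ S, (fmB a b).Ev w Q = 0) ∧ Dx P w = 0} : ℝ) / (H : ℝ) ^ (n - k) := add_div _ _ _
    _ ≤ _ := by
      have h8 : (R.card : ℝ) / (H : ℝ) ^ (n - k) ≤ C * 3 ^ n / (H : ℝ) := by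
        rw [div_le_div_iff₀ (by positivity) hH0, e1]
        calc (R.card : ℝ) * H ≤ (C * 3 ^ n * (H : ℝ) ^ (n - (k + 1))) * H := by gcongr
          _ = _ := by ring
      linarith

/-- the bound of the monomials -/
lemma mon_le (p : Ix a b) (P : ℤ × ℤ) : |(fmB a b).mon p P| ≤
    (((max 1 P.1.natAbs) ^ (a + 2) * (max 1 P.2.natAbs) ^ (b + 2) : ℕ) : ℤ) := by
  show |P.1 ^ (p.2 : ℕ) * P.2 ^ (p.1 : ℕ)| ≤ _
  have hp1 := p.1.2
  have hp2 := p.2.2
  have g1 : |P.1| ≤ ((max 1 P.1.natAbs : ℕ) : ℤ) := by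
    rw [Int.abs_eq_natAbs]
    exact_mod_cast le_max_right 1 P.1.natAbs
  have g2 : |P.2| ≤ ((max 1 P.2.natAbs : ℕ) : ℤ) := by
    rw [Int.abs_eq_natAbs]
    exact_mod_cast le_max_right 1 P.2.natAbs
  have g3 : (1 : ℤ) ≤ ((max 1 P.1.natAbs : ℕ) : ℤ) := by exact_mod_cast le_max_left _ _
  have g4 : (1 : ℤ) ≤ ((max 1 P.2.natAbs : ℕ) : ℤ) := by exact_mod_cast le_max_left _ _
  rw [abs_mul, abs_pow, abs_pow, Nat.cast_mul, Nat.cast_pow, Nat.cast_pow]
  apply mul_le_mul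
  · exact (pow_le_pow_left₀ (abs_nonneg _) g1 _).trans (pow_le_pow_right₀ g3 (by omega))
  · exact (pow_le_pow_left₀ (abs_nonneg _) g2 _).trans (pow_le_pow_right₀ g4 (by omega))
  · positivity
  · positivity

end Pool.Agent.Run7.h953.KB
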