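import Pool.Agent.Run7.h953.KB.Gen
import Pool.Agent.Run7.h953.KP.Law

set_option autoImplicit false
set_option linter.unusedSectionVars false

/-! Curves with monomials in an arbitrary finite set which contains all monomials of small degree:
the data of the limit law. -/

open Filter Topology Finset

namespace Pool.Agent.Run7.h953.KB

open Pool.Agent.R414.DN Pool.Agent.N656.LL Pool.Agent.Run7.h953.KP

variable {e : ℕ} {ι : Type} [Fintype ι] [DecidableEq ι] (M : Fm e ι)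

namespace Fm

/-- **Middle points.** -/
theorem middle {k : ℕ} (he : k + 5 ≤ e) : ∃ C : ℝ, 0 ≤ C ∧ ∀ H : ℕ, 1 ≤ H →
    ∀ T : Finset (ι → ℤ), T ⊆ ibox ι H →
    (∀ w ∈ T, ∃ S : Finset (ℤ × ℤ), S.card = k ∧ (∀ P ∈ S, sz P ≤ H) ∧
      (H : ℝ) < pt S ∧ ∀ P ∈ S, M.Ev w P = 0) →
    (T.card : ℝ) ≤ C * (H : ℝ) ^ (Fintype.card ι - (k + 1)) := by
  classical
  obtain ⟨W, hW⟩ : ∃ W : ℝ, W = ∑' S, wS S := ⟨_, rfl⟩
  have hW0 : 0 ≤ W := by rw [hW]; exact tsum_nonneg wS_nonneg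
  have hCG := CG_pos (e := e) (ι := ι)
  refine ⟨W * 3 ^ 2 * CG e ι, by positivity, fun H hH T hT hz => ?_⟩
  have hH' : (1 : ℝ) ≤ H := by exact_mod_cast hH
  have hH0 : (0 : ℝ) < H := by linarith
  obtain ⟨U, hU⟩ : ∃ U : Finset (Finset (ℤ × ℤ)), U = (bx H).powerset.filter fun S' =>
    pt S' ≤ H := ⟨_, rfl⟩
  have hUc : (U.card : ℝ) ≤ (H : ℝ) ^ 3 * W := by
    calc (U.card : ℝ) = ∑ _S' ∈ U, (1 : ℝ) := by rw [sum_const, nsmul_eq_mul, mul_one]
      _ ≤ ∑ S' ∈ U, (H : ℝ) ^ 3 * wS S' := by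
          refine sum_le_sum fun S' hS' => ?_
          rw [hU, mem_filter] at hS'
          unfold wS
          rw [mul_one_div, le_div_iff₀ (by have := pt_one S'; positivity), one_mul]
          have := pt_one S'
          exact pow_le_pow_left₀ (by linarith) hS'.2 3
      _ = (H : ℝ) ^ 3 * ∑ S' ∈ U, wS S' := by rw [mul_sum]
      _ ≤ (H : ℝ) ^ 3 * W := by
          have := summable_wS.sum_le_tsum U (fun S _ => wS_nonneg S)
          rw [← hW] at this
          gcongr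
  have hsub : T ⊆ U.biUnion fun S' => (bx H).biUnion fun P =>
      T.filter fun a => (insert P S').card ≤ e + 1 ∧ (H : ℝ) ≤ pt (insert P S') ∧
        ∀ Q ∈ insert P S', M.Ev a Q = 0 := by
    intro a ha
    obtain ⟨S, h1, h2, h3, h4⟩ := hz a ha
    obtain ⟨S', g1, P, g2, g3, g4, g5⟩ := exists_split hH' S h3
    have hsubS : insert P S' ⊆ S := insert_subset g2 g1
    rw [mem_biUnion]
    refine ⟨S', ?_, ?_⟩
    · rw [hU, mem_filter, mem_powerset]
      refine ⟨fun Q hQ => ?_, g4⟩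
      rw [mem_bx]
      exact h2 Q (g1 hQ)
    · rw [mem_biUnion]
      refine ⟨P, mem_bx.2 (h2 P g2), ?_⟩
      rw [mem_filter]
      refine ⟨ha, ?_, g5.le, fun Q hQ => h4 Q (hsubS hQ)⟩
      have := card_le_card hsubS
      omega
  have hcard : (T.card : ℝ) ≤ ∑ S' ∈ U, ∑ P ∈ bx H, CG e ι *
      (H : ℝ) ^ (Fintype.card ι - (e + 1)) := by
    have h1 := (Nat.cast_le (α := ℝ)).2 ((card_le_card hsub).trans (card_biUnion_le.trans
      (sum_le_sum fun S' _ => card_biUnion_le)))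
    push_cast at h1
    refine h1.trans (sum_le_sum fun S' _ => sum_le_sum fun P _ => ?_)
    by_cases h2 : (insert P S').card ≤ e + 1 ∧ (H : ℝ) ≤ pt (insert P S')
    · exact M.count_large hH (insert P S') h2.1 h2.2 _ ((filter_subset _ _).trans hT)
        (fun a ha => (mem_filter.1 ha).2.2.2)
    · have h3 : (T.filter fun a => (insert P S').card ≤ e + 1 ∧ (H : ℝ) ≤ pt (insert P S') ∧
        ∀ Q ∈ insert P S', M.Ev a Q = 0) = ∅ := by
        apply filter_false_of_mem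
        intro a _ h4
        exact h2 ⟨h4.1, h4.2.1⟩
      rw [h3, card_empty, Nat.cast_zero]
      positivity
  refine hcard.trans ?_
  rw [sum_const, sum_const, nsmul_eq_mul, nsmul_eq_mul, card_bx]
  have hXb : (((2 * H + 1) * (2 * H + 1) : ℕ) : ℝ) ≤ 3 ^ 2 * (H : ℝ) ^ 2 := by
    push_cast
    nlinarith
  have hMe := M.le_card
  calc (U.card : ℝ) * ((((2 * H + 1) * (2 * H + 1) : ℕ) : ℝ) * (CG e ι *
        (H : ℝ) ^ (Fintype.card ι - (e + 1))))
      ≤ ((H : ℝ) ^ 3 * W) * ((3 ^ 2 * (H : ℝ) ^ 2) * (CG e ι *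
        (H : ℝ) ^ (Fintype.card ι - (e + 1)))) := by gcongr
    _ = W * 3 ^ 2 * CG e ι *
        (H : ℝ) ^ (3 + 2 + (Fintype.card ι - (e + 1))) := by
        rw [pow_add, pow_add]
        ring
    _ ≤ _ := by
        have := pow_le_pow_right₀ hH' (by omega : 3 + 2 + (Fintype.card ι - (e + 1)) ≤
          Fintype.card ι - (k + 1))
        gcongr

/-- **Small points.** -/
theorem small {k : ℕ} (he : k + 2 ≤ e) (U : Finset (Finset (ℤ × ℤ))) {ε : ℝ}
    (hU : ∀ V : Finset (Finset (ℤ × ℤ)), Disjoint V U → ∑ S ∈ V, wS S ≤ ε) {H : ℕ} (hH : 1 ≤ H)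
    (T : Finset (ι → ℤ)) (hT : T ⊆ ibox ι H)
    (hz : ∀ a ∈ T, ∃ S : Finset (ℤ × ℤ), S.card = k ∧ S ∉ U ∧
      pt S ≤ H ∧ ∀ P ∈ S, M.Ev a P = 0) :
    (T.card : ℝ) ≤ CG e ι * ε * (H : ℝ) ^ (Fintype.card ι - k) := by
  classical
  have hCP := CG_pos (e := e) (ι := ι)
  obtain ⟨V, hV⟩ : ∃ V : Finset (Finset (ℤ × ℤ)), V = (bx H).powerset.filter fun S =>
    S.card = k ∧ S ∉ U ∧ pt S ≤ H := ⟨_, rfl⟩
  have hVU : Disjoint V U := by
    rw [disjoint_left]
    intro S hS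
    rw [hV, mem_filter] at hS
    exact hS.2.2.1
  have hsub : T ⊆ V.biUnion fun S => T.filter fun a => ∀ P ∈ S, M.Ev a P = 0 := by
    intro a ha
    obtain ⟨S, h1, h2, h3, h4⟩ := hz a ha
    rw [mem_biUnion]
    refine ⟨S, ?_, mem_filter.2 ⟨ha, h4⟩⟩
    rw [hV, mem_filter, mem_powerset]
    refine ⟨fun P hP => ?_, h1, h2, h3⟩
    rw [mem_bx]
    have h5 := (le_max_right (1 : ℝ) (sz P : ℝ)).trans ((tau_le_pt hP).trans h3)
    exact_mod_cast h5
  have h1 := (Nat.cast_le (α := ℝ)).2 ((card_le_card hsub).trans card_biUnion_le)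
  push_cast at h1
  refine h1.trans ?_
  calc ∑ S ∈ V, ((T.filter fun a => ∀ P ∈ S, M.Ev a P = 0).card : ℝ)
      ≤ ∑ S ∈ V, CG e ι * (H : ℝ) ^ (Fintype.card ι - k) * wS S := by
        refine sum_le_sum fun S hS => ?_
        rw [hV, mem_filter] at hS
        have hS1 := hS.2.1
        have h2 := M.count_small hH S (by omega) hS.2.2.2
          (T.filter fun a => ∀ P ∈ S, M.Ev a P = 0)
          ((filter_subset _ _).trans hT) (fun a ha => (mem_filter.1 ha).2)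
        refine h2.trans ?_
        rw [hS1]
        unfold wS
        rw [mul_one_div]
        have h3 := pt_one S
        have h4 : pt S ^ 3 ≤ pt S ^ (e + 1 - k) := pow_le_pow_right₀ h3 (by omega)
        gcongr
    _ = CG e ι * (H : ℝ) ^ (Fintype.card ι - k) * ∑ S ∈ V, wS S := by rw [mul_sum]
    _ ≤ CG e ι * (H : ℝ) ^ (Fintype.card ι - k) * ε := by
        have := hU V hVU
        gcongr
    _ = _ := by ring

/-- few polynomials have a zero of size at least `H` -/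
def FewBig (t : ι) (k : ℕ) : Prop := ∃ C : ℝ, 0 ≤ C ∧ ∀ H : ℕ, 1 ≤ H → ∀ T : Finset (ι → ℤ),
  T ⊆ ibox ι H → (∀ w ∈ T, w t ≠ 0 ∧ ∃ P : ℤ × ℤ, H ≤ sz P ∧ M.Ev w P = 0) →
    (T.card : ℝ) ≤ C * (H : ℝ) ^ (Fintype.card ι - (k + 1))

/-- **The tail.** -/
theorem tail {k : ℕ} (he : k + 5 ≤ e) (t : ι) (hb : M.FewBig t k) (ε : ℝ) (hε : 0 < ε) :
    ∃ U : Finset (Finset (ℤ × ℤ)), ∀ᶠ H : ℕ in atTop,
      (Set.ncard {w : ι → ℤ | w ∈ (ibox ι H).filter (fun w => w t ≠ 0) ∧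
      ∃ S : Finset (ℤ × ℤ), S.card = k ∧ S ∉ U ∧ ∀ P ∈ S, M.Ev w P = 0} : ℝ) /
        (H : ℝ) ^ (Fintype.card ι - k) ≤ ε := by
  classical
  obtain ⟨C1, hC1, h1⟩ := hb
  obtain ⟨C2, hC2, h2⟩ := M.middle he
  have hCP := CG_pos (e := e) (ι := ι)
  obtain ⟨ε', hε', hεε⟩ : ∃ ε' : ℝ, 0 < ε' ∧ CG e ι * ε' = ε / 2 :=
    ⟨ε / 2 / CG e ι, by positivity, by field_simp⟩
  obtain ⟨U, hU⟩ := summable_iff_vanishing_norm.1 summable_wS ε' hε'
  refine ⟨U, ?_⟩
  obtain ⟨H₀, hH₀⟩ := exists_nat_ge (2 * (C1 + C2) / ε)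
  filter_upwards [eventually_ge_atTop H₀, eventually_ge_atTop 1] with H hH0 hH
  have hH' : (1 : ℝ) ≤ H := by exact_mod_cast hH
  have hHp : (0 : ℝ) < H := by linarith
  obtain ⟨T, hT⟩ : ∃ T : Finset (ι → ℤ), T = ((ibox ι H).filter fun w => w t ≠ 0).filter fun w =>
    ∃ S : Finset (ℤ × ℤ), S.card = k ∧ S ∉ U ∧ ∀ P ∈ S, M.Ev w P = 0 := ⟨_, rfl⟩
  have hcard : Set.ncard {w : ι → ℤ | w ∈ (ibox ι H).filter (fun w => w t ≠ 0) ∧
      ∃ S : Finset (ℤ × ℤ), S.card = k ∧ S ∉ U ∧ ∀ P ∈ S, M.Ev w P = 0} = T.card := by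
    rw [hT, ← Set.ncard_coe_finset]
    congr 1
    ext a
    rw [mem_coe, mem_filter (s := (ibox ι H).filter fun w => w t ≠ 0)]
    rfl
  rw [hcard]
  obtain ⟨T1, hT1⟩ : ∃ T1 : Finset (ι → ℤ), T1 = T.filter fun w => ∃ P : ℤ × ℤ, H ≤ sz P ∧
    M.Ev w P = 0 := ⟨_, rfl⟩
  obtain ⟨T2, hT2⟩ : ∃ T2 : Finset (ι → ℤ), T2 = T.filter fun w => ∃ S : Finset (ℤ × ℤ),
    S.card = k ∧ (∀ P ∈ S, sz P ≤ H) ∧ (H : ℝ) < pt S ∧ ∀ P ∈ S, M.Ev w P = 0 := ⟨_, rfl⟩
  obtain ⟨T3, hT3⟩ : ∃ T3 : Finset (ι → ℤ), T3 = T.filter fun w => ∃ S : Finset (ℤ × ℤ),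
    S.card = k ∧ S ∉ U ∧ pt S ≤ H ∧ ∀ P ∈ S, M.Ev w P = 0 := ⟨_, rfl⟩
  have hTb : T ⊆ ibox ι H := by
    rw [hT]
    exact (filter_subset _ _).trans (filter_subset _ _)
  have hTt : ∀ w ∈ T, w t ≠ 0 := by
    intro w hw
    rw [hT, mem_filter, mem_filter] at hw
    exact hw.1.2
  have hsub : T ⊆ T1 ∪ (T2 ∪ T3) := by
    intro a ha
    have ha' := ha
    rw [hT, mem_filter] at ha'
    obtain ⟨-, S, g1, g2, g3⟩ := ha'
    rw [mem_union, mem_union, hT1, hT2, hT3, mem_filter, mem_filter, mem_filter]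
    by_cases g4 : ∀ P ∈ S, sz P ≤ H
    · by_cases g5 : (H : ℝ) < pt S
      · exact Or.inr (Or.inl ⟨ha, S, g1, g4, g5, g3⟩)
      · exact Or.inr (Or.inr ⟨ha, S, g1, g2, not_lt.1 g5, g3⟩)
    · push Not at g4
      obtain ⟨P, hP, hP2⟩ := g4
      exact Or.inl ⟨ha, P, hP2.le, g3 P hP⟩
  have b1 := h1 H hH T1 (by rw [hT1]; exact (filter_subset _ _).trans hTb) (by
    intro a ha
    rw [hT1, mem_filter] at ha
    exact ⟨hTt a ha.1, ha.2⟩)
  have b2 := h2 H hH T2 (by rw [hT2]; exact (filter_subset _ _).trans hTb) (by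
    intro a ha
    rw [hT2, mem_filter] at ha
    exact ha.2)
  have b3 := M.small (by omega : k + 2 ≤ e) U (ε := ε') (by
    intro V hV
    have := hU V hV
    rw [Real.norm_eq_abs, abs_of_nonneg (sum_nonneg fun S _ => wS_nonneg S)] at this
    exact this.le) hH T3 (by rw [hT3]; exact (filter_subset _ _).trans hTb) (by
    intro a ha
    rw [hT3, mem_filter] at ha
    exact ha.2)
  rw [hεε] at b3
  have hc := (Nat.cast_le (α := ℝ)).2 ((card_le_card hsub).trans ((card_union_le _ _).trans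
    (add_le_add le_rfl (card_union_le _ _))))
  push_cast at hc
  have hM := M.le_card
  have e1 : (H : ℝ) ^ (Fintype.card ι - k) = (H : ℝ) ^ (Fintype.card ι - (k + 1)) * H := by
    rw [← pow_succ]
    congr 1
    omega
  rw [div_le_iff₀ (by positivity)]
  have h5 : (C1 + C2) * (H : ℝ) ^ (Fintype.card ι - (k + 1)) ≤
      ε / 2 * (H : ℝ) ^ (Fintype.card ι - k) := by
    rw [e1]
    have h6 : C1 + C2 ≤ ε / 2 * H := by
      have h7 : 2 * (C1 + C2) / ε ≤ H := hH₀.trans (by exact_mod_cast hH0)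
      rw [div_le_iff₀ hε] at h7
      linarith
    calc (C1 + C2) * (H : ℝ) ^ (Fintype.card ι - (k + 1)) ≤
          (ε / 2 * H) * (H : ℝ) ^ (Fintype.card ι - (k + 1)) := by
          gcongr
      _ = _ := by ring
  linarith

lemma two_points {k : ℕ} (he : k ≤ e) {T : Finset (ℤ × ℤ)} (hT : T.card = k + 1) :
    Tendsto (fun H : ℕ => (Set.ncard {w : ι → ℤ | w ∈ ibox ι H ∧
      ∀ P ∈ T, M.Ev w P = 0} : ℝ) / (H : ℝ) ^ (Fintype.card ι - k)) atTop (𝓝 0) := by
  have h1 := M.lim T (by omega)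
  rw [hT] at h1
  have h2 : Tendsto (fun H : ℕ => 1 / (H : ℝ)) atTop (𝓝 0) :=
    tendsto_const_nhds.div_atTop tendsto_natCast_atTop_atTop
  have h3 := h1.mul h2
  rw [mul_zero] at h3
  refine h3.congr' ?_
  filter_upwards [eventually_ge_atTop 1] with H hH
  have hH0 : (0 : ℝ) < H := by exact_mod_cast hH
  have hM := M.le_card
  have e1 : (H : ℝ) ^ (Fintype.card ι - k) = (H : ℝ) ^ (Fintype.card ι - (k + 1)) * H := by
    rw [← pow_succ]
    congr 1
    omega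
  rw [e1]
  field_simp

/-- **The data of the limit law.** -/
noncomputable def dat {k : ℕ} (he : k + 5 ≤ e) (t : ι) (ht : t ∉ M.rg) (hb : M.FewBig t k) :
    LawData where
  ι := {S : Finset (ℤ × ℤ) // S.card = k}
  α := ι → ℤ
  S H := (ibox ι H).filter fun w => w t ≠ 0
  Z w i := ∀ P ∈ i.1, M.Ev w P = 0
  v i := M.V i.1
  n := Fintype.card ι - k
  hv i := M.V_pos i.1
  lim i := by
    have h1 := M.lim_ne i.1 (by rw [i.2]; omega) t ht
    rw [i.2] at h1
    exact h1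
  two i j hij := by
    classical
    have h1 : k + 1 ≤ (i.1 ∪ j.1).card := by
      by_contra h
      apply hij
      apply Subtype.ext
      have h2 : i.1 = i.1 ∪ j.1 := eq_of_subset_of_card_le subset_union_left (by
        rw [i.2]
        omega)
      have h3 : j.1 ⊆ i.1 := by
        rw [h2]
        exact subset_union_right
      exact (eq_of_subset_of_card_le h3 (by rw [i.2, j.2])).symm
    obtain ⟨T, hT1, hT2⟩ := exists_subset_card_eq h1
    refine squeeze_zero (fun H => by positivity) (fun H => ?_)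
      (M.two_points (by omega : k ≤ e) hT2)
    apply div_le_div_of_nonneg_right _ (by positivity)
    have hfin : {w : ι → ℤ | w ∈ ibox ι H ∧ ∀ P ∈ T, M.Ev w P = 0}.Finite :=
      ((ibox ι H).finite_toSet).subset fun a h => h.1
    have hsub : {w : ι → ℤ | w ∈ (ibox ι H).filter (fun w => w t ≠ 0) ∧
        (∀ P ∈ i.1, M.Ev w P = 0) ∧ ∀ P ∈ j.1, M.Ev w P = 0} ⊆
        {w : ι → ℤ | w ∈ ibox ι H ∧ ∀ P ∈ T, M.Ev w P = 0} := by
      rintro a ⟨h3, h4, h5⟩
      refine ⟨(mem_filter.1 h3).1, fun P hP => ?_⟩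
      rcases mem_union.1 (hT1 hP) with h6 | h6
      · exact h4 P h6
      · exact h5 P h6
    exact_mod_cast Set.ncard_le_ncard hsub hfin
  tail ε hε := by
    classical
    obtain ⟨U, hU⟩ := M.tail he t hb ε hε
    refine ⟨U.subtype fun S => S.card = k, ?_⟩
    filter_upwards [hU] with H hH
    refine le_trans ?_ hH
    apply div_le_div_of_nonneg_right _ (by positivity)
    have hfin : {w : ι → ℤ | w ∈ (ibox ι H).filter (fun w => w t ≠ 0) ∧
        ∃ S : Finset (ℤ × ℤ), S.card = k ∧ S ∉ U ∧ ∀ P ∈ S, M.Ev w P = 0}.Finite :=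
      (((ibox ι H).filter (fun w => w t ≠ 0)).finite_toSet).subset fun a h => h.1
    have hsub : {w : ι → ℤ | w ∈ (ibox ι H).filter (fun w => w t ≠ 0) ∧
        ∃ i : {S : Finset (ℤ × ℤ) // S.card = k},
        i ∉ (U.subtype (fun S : Finset (ℤ × ℤ) => S.card = k) :
          Finset {S : Finset (ℤ × ℤ) // S.card = k}) ∧ ∀ P ∈ i.1, M.Ev w P = 0} ⊆
        {w : ι → ℤ | w ∈ (ibox ι H).filter (fun w => w t ≠ 0) ∧
        ∃ S : Finset (ℤ × ℤ), S.card = k ∧ S ∉ U ∧ ∀ P ∈ S, M.Ev w P = 0} := by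
      rintro a ⟨h3, i, h4, h5⟩
      refine ⟨h3, i.1, i.2, ?_, h5⟩
      intro h6
      apply h4
      rw [mem_subtype]
      exact h6
    exact_mod_cast Set.ncard_le_ncard hsub hfin

/-- **A condition which fails in a direction is rare.** -/
theorem rare_of_dir (S : Finset (ℤ × ℤ)) (hS : S.card ≤ e + 1) (h : ι → ℤ)
    (hh : ∀ Q ∈ S, M.Ev h Q = 0) (D : (ι → ℤ) → ℤ)
    (hD : ∀ (w : ι → ℤ) (j : ℤ), D (fun p => w p + j * h p) = D w + j * D h) (hDh : D h ≠ 0) :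
    Tendsto (fun H : ℕ => (Set.ncard {w : ι → ℤ | w ∈ ibox ι H ∧
      (∀ Q ∈ S, M.Ev w Q = 0) ∧ D w = 0} : ℝ) / (H : ℝ) ^ (Fintype.card ι - S.card)) atTop
      (𝓝 0) := by
  classical
  obtain ⟨b, hb⟩ : ∃ b : ℕ, ∀ p, |h p| ≤ (b : ℤ) := by
    refine ⟨∑ p, (h p).natAbs, fun p => ?_⟩
    rw [Int.abs_eq_natAbs]
    exact_mod_cast single_le_sum (f := fun p => (h p).natAbs) (fun _ _ => Nat.zero_le _)
      (mem_univ p)
  have hlim := M.lim S hS
  have hmap : Tendsto (fun H : ℕ => (1 + b) * H) atTop atTop := by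
    apply tendsto_atTop_mono (fun H => ?_) tendsto_id
    simp only [id]
    nlinarith [Nat.zero_le (b * H)]
  have h1 := hlim.comp hmap
  have h2 : Tendsto (fun H : ℕ => ((1 + b : ℕ) : ℝ) ^ (Fintype.card ι - S.card) / ((H : ℝ) + 1))
      atTop (𝓝 0) := by
    apply Tendsto.div_atTop tendsto_const_nhds
    exact tendsto_atTop_add_const_right _ _ tendsto_natCast_atTop_atTop
  have h3 := h2.mul h1
  rw [zero_mul] at h3
  refine squeeze_zero' (Eventually.of_forall fun H => by positivity) ?_ h3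
  filter_upwards [eventually_ge_atTop 1] with H hH
  obtain ⟨T, hT⟩ : ∃ T : Finset (ι → ℤ), T = (ibox ι H).filter fun w =>
    (∀ Q ∈ S, M.Ev w Q = 0) ∧ D w = 0 := ⟨_, rfl⟩
  obtain ⟨Z, hZ⟩ : ∃ Z : Finset (ι → ℤ), Z = (ibox ι ((1 + b) * H)).filter fun w =>
    ∀ Q ∈ S, M.Ev w Q = 0 := ⟨_, rfl⟩
  have hTc : Set.ncard {w : ι → ℤ | w ∈ ibox ι H ∧
      (∀ Q ∈ S, M.Ev w Q = 0) ∧ D w = 0} = T.card := by
    rw [hT, ← Set.ncard_coe_finset]
    congr 1
    ext a
    rw [mem_coe, mem_filter]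
    rfl
  have hZc : Set.ncard {w : ι → ℤ | w ∈ ibox ι ((1 + b) * H) ∧
      ∀ Q ∈ S, M.Ev w Q = 0} = Z.card := by
    rw [hZ, ← Set.ncard_coe_finset]
    congr 1
    ext a
    rw [mem_coe, mem_filter]
    rfl
  have hEv : ∀ (w : ι → ℤ) (j : ℤ) (Q : ℤ × ℤ), M.Ev (fun p => w p + j * h p) Q =
      M.Ev w Q + j * M.Ev h Q := by
    intro w j Q
    unfold Ev
    rw [mul_sum, ← sum_add_distrib]
    refine sum_congr rfl fun p _ => ?_
    ring
  simp only [Function.comp_apply]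
  rw [hTc, hZc]
  have key : T.card * (H + 1) ≤ Z.card := by
    rw [← card_range (H + 1), ← card_product]
    apply card_le_card_of_injOn (fun q : (ι → ℤ) × ℕ => fun p => q.1 p + (q.2 : ℤ) * h p)
    · rintro ⟨a, j⟩ hq
      rw [mem_coe, mem_product, mem_range, hT, mem_filter] at hq
      obtain ⟨⟨ha1, ha2, ha3⟩, hj⟩ := hq
      rw [mem_coe, hZ, mem_filter]
      constructor
      · rw [mem_ibox]
        intro p
        have e1 := mem_ibox.1 ha1 p
        have e2 := hb p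
        simp only at hj ⊢
        refine (abs_add_le _ _).trans ?_
        rw [abs_mul, Nat.abs_cast]
        have e3 : (j : ℤ) ≤ H := by exact_mod_cast (by omega : j ≤ H)
        have e4 : (j : ℤ) * |h p| ≤ H * b := by
          apply mul_le_mul e3 e2 (abs_nonneg _) (by positivity)
        push_cast
        nlinarith
      · intro Q hQ
        rw [hEv]
        have e1 := ha2 Q hQ
        simp only at e1 ⊢
        rw [e1, hh Q hQ, mul_zero, add_zero]
    · rintro ⟨a, j⟩ hq ⟨a', j'⟩ hq' heq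
      rw [mem_coe, mem_product, mem_range, hT, mem_filter] at hq hq'
      obtain ⟨⟨ha1, ha2, ha3⟩, hj⟩ := hq
      obtain ⟨⟨ha1', ha2', ha3'⟩, hj'⟩ := hq'
      simp only at heq
      have e1 := congrArg D heq
      simp only at ha3 ha3'
      rw [hD, hD, ha3, ha3', zero_add, zero_add] at e1
      have e3 := mul_right_cancel₀ hDh e1
      have e4 : j = j' := by exact_mod_cast e3
      subst e4
      rw [Prod.mk.injEq]
      refine ⟨?_, rfl⟩
      funext p
      have := congrFun heq p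
      linarith
  have hH0 : (0 : ℝ) < H := by exact_mod_cast hH
  have hkey : (T.card : ℝ) * ((H : ℝ) + 1) ≤ Z.card := by exact_mod_cast key
  push_cast
  rw [mul_pow]
  calc (T.card : ℝ) / (H : ℝ) ^ (Fintype.card ι - S.card)
      ≤ (Z.card / ((H : ℝ) + 1)) / (H : ℝ) ^ (Fintype.card ι - S.card) := by
        gcongr
        rw [le_div_iff₀ (by positivity)]
        exact hkey
    _ = _ := by
        field_simp

end Fm

end Pool.Agent.Run7.h953.KB
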